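import Mathlib
import Pool.Agent.H373R2.NB.Restr

set_option autoImplicit false

/-! Restriction estimate for arbitrary bounded weights on the primes. -/

namespace Pool.Agent.W5h22.PV
open Finset
open Pool.Agent.Helper602.MK
open Pool.Agent.H373R2.NB

/-- the weight `f` on the primes in `(√k, k]` -/
noncomputable def wZ (f : ℕ → ℝ) (k M : ℕ) (m : ZMod M) : ℝ := if m.val ∈ PP k then f m.val else 0

lemma hat_wZ {M : ℕ} [NeZero M] (f : ℕ → ℝ) (k : ℕ) (hk : k < M) (ξ : ZMod M) :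
    hat (wZ f k M) ξ = ∑ p ∈ PP k, (f p : ℂ) * ee ((ξ.val : ℝ) * p / M) := by
  have hsub : PP k ⊆ range M := by
    intro p hp
    rw [PP, mem_filter, mem_Icc] at hp
    exact mem_range.2 (by omega)
  have h1 : hat (wZ f k M) ξ = ∑ m : ZMod M,
      (fun t : ℕ => if t ∈ PP k then (f t : ℂ) * ee ((ξ.val : ℝ) * t / M) else 0) m.val := by
    unfold hat
    apply sum_congr rfl
    intro m _
    simp only [wZ]
    split_ifs with h
    · rw [← chi_eq, ZMod.natCast_zmod_val]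
    · rw [Complex.ofReal_zero, zero_mul]
  rw [h1, sum_val (fun t : ℕ => if t ∈ PP k then (f t : ℂ) * ee ((ξ.val : ℝ) * t / M) else 0), ← sum_filter]
  congr 1
  ext p
  rw [mem_filter]
  exact ⟨fun h => h.2, fun h => ⟨hsub h, h⟩⟩

/-- large sieve for few points on `ZMod M` -/
lemma few_points_w : ∃ C : ℝ, 1 ≤ C ∧ ∃ k0 : ℕ, 2 ≤ k0 ∧ ∀ k : ℕ, k0 ≤ k → ∀ M : ℕ, [NeZero M] → k < M → M ≤ 100 * k →
    ∀ f : ℕ → ℝ, (∀ p, |f p| ≤ 1) → ∀ X : Finset (ZMod M), X.Nonempty →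
      ∑ ξ ∈ X, ‖hat (wZ f k M) ξ‖ ^ 2 * (Real.log k / k) ^ 2 ≤ C * Real.log (2 * #X) := by
  obtain ⟨C, hC, k0, hk0, h5⟩ := mj5
  have hlog4 : 1 ≤ Real.log 4 := by
    rw [Real.le_log_iff_exp_le (by norm_num)]
    have := Real.exp_one_lt_d9
    linarith
  refine ⟨C * (2 * Real.log 4), by nlinarith, k0, hk0, ?_⟩
  intro k hk M hM hkM hM100 f hf X hX
  have hk2 : 2 ≤ k := hk0.trans hk
  have hkpos : (0 : ℝ) < k := by exact_mod_cast (by omega : 0 < k)
  have hlk : 0 < Real.log k := Real.log_pos (by exact_mod_cast hk2)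
  have h6 := h5 k hk M hkM.le hM100 (X.image (fun m => m.val)) (by
    intro t ht
    rw [mem_image] at ht
    obtain ⟨m, _, rfl⟩ := ht
    exact mem_range.2 (ZMod.val_lt m)) (hX.image _) (fun p => (f p : ℂ))
  rw [sum_image (fun a _ b _ h => ZMod.val_injective M h), card_image_of_injective _ (ZMod.val_injective M)] at h6
  have h7 : ∑ ξ ∈ X, ‖hat (wZ f k M) ξ‖ ^ 2 ≤ C * (k / Real.log k) * Real.log (2 * #X) * (2 * Real.log 4 * (k / Real.log k)) := by
    calc ∑ ξ ∈ X, ‖hat (wZ f k M) ξ‖ ^ 2 = ∑ ξ ∈ X, ‖∑ p ∈ PP k, (f p : ℂ) * ee ((ξ.val : ℝ) * p / M)‖ ^ 2 := by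
          apply sum_congr rfl; intro ξ _
          rw [hat_wZ f k hkM]
      _ ≤ _ := h6
      _ ≤ _ := by
          have hc : (1 : ℝ) ≤ #X := by exact_mod_cast card_pos.2 hX
          have hl : 0 ≤ Real.log (2 * #X) := Real.log_nonneg (by linarith)
          apply mul_le_mul_of_nonneg_left _ (by positivity)
          refine le_trans ?_ (N_J6.j6_card k hk2)
          calc ∑ p ∈ PP k, ‖(f p : ℂ)‖ ^ 2 ≤ ∑ _p ∈ PP k, (1 : ℝ) := by
                apply sum_le_sum; intro p _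
                rw [Complex.norm_real, Real.norm_eq_abs]
                exact pow_le_one₀ (abs_nonneg _) (hf p)
            _ = _ := by rw [sum_const, nsmul_eq_mul, mul_one]
  rw [← sum_mul]
  calc (∑ ξ ∈ X, ‖hat (wZ f k M) ξ‖ ^ 2) * (Real.log k / k) ^ 2 ≤
      (C * (k / Real.log k) * Real.log (2 * #X) * (2 * Real.log 4 * (k / Real.log k))) * (Real.log k / k) ^ 2 :=
        mul_le_mul_of_nonneg_right h7 (by positivity)
    _ = _ := by field_simp

/-- restriction for bounded weights on the primes, exponents close to `2` -/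
theorem restr_w (η : ℝ) (hη0 : 0 < η) (hη1 : η ≤ 1) : ∃ C : ℝ, 0 < C ∧ ∃ k0 : ℕ, 2 ≤ k0 ∧ ∀ k : ℕ, k0 ≤ k →
    ∀ M : ℕ, [NeZero M] → k < M → M ≤ 100 * k → ∀ f : ℕ → ℝ, (∀ p, |f p| ≤ 1) →
      ∑ ξ : ZMod M, (‖hat (wZ f k M) ξ‖ ^ 2 * (Real.log k / k) ^ 2) ^ (1 + η) ≤ C := by
  obtain ⟨C, hC, k0, hk0, h5⟩ := few_points_w
  have hs : Summable (fun n : ℕ => ((n + 1 : ℕ) : ℝ) ^ (-(1 + η / 2))) :=
    (summable_nat_add_iff 1).2 (Real.summable_nat_rpow.2 (by linarith))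
  set S : ℝ := ∑' n : ℕ, ((n + 1 : ℕ) : ℝ) ^ (-(1 + η / 2)) with hS
  have hS0 : 0 < S := hs.tsum_pos (fun n => by positivity) 0 (by positivity)
  set θ : ℝ := η / 4 with hθ
  have hθ0 : 0 < θ := by positivity
  refine ⟨(C * (2 ^ θ / θ)) ^ (1 + η) * S, by positivity, k0, hk0, ?_⟩
  intro k hk M hM hkM hM100 f hf
  set g : ZMod M → ℝ := fun ξ => ‖hat (wZ f k M) ξ‖ ^ 2 * (Real.log k / k) ^ 2 with hg
  have hg0 : ∀ ξ, 0 ≤ g ξ := fun ξ => by positivity
  classical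
  have hsort := sort_sum (fun ξ => g ξ ^ (1 + η)) univ
    (fun n => (C * (2 ^ θ / θ)) ^ (1 + η) * (n : ℝ) ^ (-(1 + η / 2))) (by
    intro X _ hXne
    obtain ⟨t, ht, hmin⟩ := exists_min_image X g hXne
    refine ⟨t, ht, ?_⟩
    have hn1 : (1 : ℝ) ≤ #X := by exact_mod_cast card_pos.2 hXne
    have hn0 : (0 : ℝ) < #X := by linarith
    have h6 := h5 k hk M hkM hM100 f hf X hXne
    have h7 : (#X : ℝ) * g t ≤ C * Real.log (2 * #X) := by
      refine le_trans ?_ h6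
      rw [← nsmul_eq_mul]
      exact card_nsmul_le_sum _ _ _ hmin
    have h8 : Real.log (2 * #X) ≤ (2 * (#X : ℝ)) ^ θ / θ := Real.log_le_rpow_div (by positivity) hθ0
    have h9 : g t ≤ (C * (2 ^ θ / θ)) * (#X : ℝ) ^ (θ - 1) := by
      rw [Real.rpow_sub_one hn0.ne', ← mul_div_assoc, le_div_iff₀ hn0]
      calc g t * #X = #X * g t := mul_comm _ _
        _ ≤ C * ((2 * (#X : ℝ)) ^ θ / θ) := h7.trans (mul_le_mul_of_nonneg_left h8 (by linarith))
        _ = _ := by rw [Real.mul_rpow (by norm_num) hn0.le]; ring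
    calc g t ^ (1 + η) ≤ ((C * (2 ^ θ / θ)) * (#X : ℝ) ^ (θ - 1)) ^ (1 + η) :=
          Real.rpow_le_rpow (hg0 t) h9 (by linarith)
      _ = (C * (2 ^ θ / θ)) ^ (1 + η) * (#X : ℝ) ^ ((θ - 1) * (1 + η)) := by
          rw [Real.mul_rpow (by positivity) (by positivity), ← Real.rpow_mul hn0.le]
      _ ≤ _ := by
          apply mul_le_mul_of_nonneg_left _ (by positivity)
          apply Real.rpow_le_rpow_of_exponent_le hn1
          rw [hθ]; nlinarith)
  refine hsort.trans ?_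
  rw [← mul_sum]
  apply mul_le_mul_of_nonneg_left _ (by positivity)
  exact hs.sum_le_tsum _ (fun n _ => by positivity)

end Pool.Agent.W5h22.PV
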