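import Mathlib
import Pool.Agent.H373R2.NB.SupE
import Pool.Agent.W5h22.PV.A

set_option autoImplicit false

/-! The second moment, over all shifts, of a weight on the primes minus its average over the shifts by
`W, 2W, ..., JW`, along the values of a polynomial. -/

namespace Pool.Agent.W5h22.PV
open Finset Polynomial
open Pool.Agent.Helper602.MK
open Pool.Agent.Helper602.MK.N_J5b (ee_add ee_zero ee_conj norm_ee ee_int norm_one_sub_ee)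
open Pool.Agent.H373R2.NB

section
variable {M : ℕ} [NeZero M]

/-- average over forward shifts -/
noncomputable def sm (W J : ℕ) (u : ZMod M → ℝ) (m : ZMod M) : ℝ :=
  (1 / (J : ℝ)) * ∑ j ∈ Icc 1 J, u (m + ((j * W : ℕ) : ZMod M))

/-- the difference -/
noncomputable def df (W J : ℕ) (u : ZMod M → ℝ) (m : ZMod M) : ℝ := u m - sm W J u m

lemma hat_add (u : ZMod M → ℝ) (c ξ : ZMod M) :
    ∑ m, ((u (m + c) : ℝ) : ℂ) * ZMod.stdAddChar (ξ * m) = ZMod.stdAddChar (-(ξ * c)) * hat u ξ := by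
  have h := hat_shift u (-c) ξ
  simp only [sub_neg_eq_add] at h
  rw [h, mul_neg]

lemma hat_df (W J : ℕ) (u : ZMod M → ℝ) (ξ : ZMod M) :
    hat (df W J u) ξ = (1 - (starRingEnd ℂ) (nuZ W J ξ)) * hat u ξ := by
  have h1 : hat (sm W J u) ξ = (starRingEnd ℂ) (nuZ W J ξ) * hat u ξ := by
    have h2 : hat (sm W J u) ξ = (1 / (J : ℂ)) * ∑ j ∈ Icc 1 J, ∑ m : ZMod M,
        ((u (m + ((j * W : ℕ) : ZMod M)) : ℝ) : ℂ) * ZMod.stdAddChar (ξ * m) := by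
      rw [hat, sum_comm, mul_sum]
      apply sum_congr rfl
      intro m _
      rw [← sum_mul]
      unfold sm
      push_cast
      ring
    rw [h2]
    unfold nuZ
    rw [map_mul, map_div₀, map_one, Complex.conj_natCast, map_sum, mul_assoc, sum_mul]
    congr 1
    apply sum_congr rfl
    intro j _
    rw [hat_add, chi_conj]
  have h3 : hat (df W J u) ξ = hat u ξ - hat (sm W J u) ξ := by
    unfold hat df
    rw [← sum_sub_distrib]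
    apply sum_congr rfl
    intro m _
    push_cast; ring
  rw [h3, h1]; ring

lemma norm_hat_df (W J : ℕ) (u : ZMod M → ℝ) (ξ : ZMod M) :
    ‖hat (df W J u) ξ‖ = ‖1 - nuZ W J ξ‖ * ‖hat u ξ‖ := by
  rw [hat_df, norm_mul]
  congr 1
  have : (1 : ℂ) - (starRingEnd ℂ) (nuZ W J ξ) = (starRingEnd ℂ) (1 - nuZ W J ξ) := by
    rw [map_sub, map_one]
  rw [this, RCLike.norm_conj]

/-- the second moment identity -/
lemma second_id {ι : Type*} (u : ZMod M → ℝ) (s : Finset ι) (c : ι → ZMod M) :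
    (M : ℝ) * ∑ a : ZMod M, (∑ i ∈ s, u (a + c i)) ^ 2 =
      ∑ ξ, ‖hat u ξ‖ ^ 2 * ‖∑ i ∈ s, (ZMod.stdAddChar (ξ * c i) : ℂ)‖ ^ 2 := by
  rw [← parseval (fun a => ∑ i ∈ s, u (a + c i))]
  apply sum_congr rfl
  intro ξ _
  have h1 : hat (fun a => ∑ i ∈ s, u (a + c i)) ξ = (∑ i ∈ s, (ZMod.stdAddChar (-(ξ * c i)) : ℂ)) * hat u ξ := by
    rw [sum_mul]
    have h2 : ∀ i ∈ s, (ZMod.stdAddChar (-(ξ * c i)) : ℂ) * hat u ξ =
        ∑ m, ((u (m + c i) : ℝ) : ℂ) * ZMod.stdAddChar (ξ * m) := fun i _ => (hat_add u (c i) ξ).symm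
    rw [sum_congr rfl h2, sum_comm]
    unfold hat
    apply sum_congr rfl
    intro m _
    push_cast
    rw [sum_mul]
  have h3 : ∑ i ∈ s, (ZMod.stdAddChar (-(ξ * c i)) : ℂ) = (starRingEnd ℂ) (∑ i ∈ s, (ZMod.stdAddChar (ξ * c i) : ℂ)) := by
    rw [map_sum]
    exact sum_congr rfl fun i _ => (chi_conj _).symm
  rw [h1, norm_mul, mul_pow, mul_comm, h3, RCLike.norm_conj]

end

/-- summation of the contributions of all frequencies -/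
lemma mix {G : Type*} [Fintype G] (g s b : G → ℝ) (p : ℕ) (hp : 1 ≤ p) (δ κ C₁ C₂ : ℝ) (hδ : 0 ≤ δ)
    (hκ : 0 ≤ κ) (hg0 : ∀ ξ, 0 ≤ g ξ) (hs0 : ∀ t, 0 ≤ s t) (hs1 : ∀ t, s t ≤ 1) (hb0 : ∀ ξ, 0 ≤ b ξ)
    (hb2 : ∀ ξ, b ξ ≤ 2) (hb : ∀ ξ, δ ≤ s ξ → b ξ ≤ κ)
    (h1 : ∑ t, s t ^ p ≤ C₁) (h2 : ∑ ξ, g ξ ^ (1 + 1 / (p : ℝ)) ≤ C₂) :
    ∑ ξ, g ξ * (b ξ ^ 2 * s ξ ^ 2) ≤ (4 * δ + κ ^ 2) * (C₁ + C₂) := by
  have hp0 : (0 : ℝ) < p := by exact_mod_cast hp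
  have hK : 0 ≤ 4 * δ + κ ^ 2 := by positivity
  have hterm : ∀ ξ, g ξ * (b ξ ^ 2 * s ξ ^ 2) ≤ (4 * δ + κ ^ 2) * (s ξ ^ p + g ξ ^ (1 + 1 / (p : ℝ))) := by
    intro ξ
    have e1 : b ξ ^ 2 * s ξ ^ 2 ≤ (4 * δ + κ ^ 2) * s ξ := by
      have k0 := hs0 ξ
      have k1 := hs1 ξ
      have k2 := hb0 ξ
      rcases le_or_gt δ (s ξ) with h | h
      · have k3 := hb ξ h
        have k4 : b ξ ^ 2 ≤ κ ^ 2 := pow_le_pow_left₀ k2 k3 2
        calc b ξ ^ 2 * s ξ ^ 2 ≤ κ ^ 2 * s ξ := by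
              apply mul_le_mul k4 _ (by positivity) (by positivity)
              nlinarith
          _ ≤ _ := by
              apply mul_le_mul_of_nonneg_right _ k0
              linarith
      · have k3 := hb2 ξ
        have k4 : b ξ ^ 2 ≤ 4 := by nlinarith
        calc b ξ ^ 2 * s ξ ^ 2 ≤ 4 * (δ * s ξ) := by
              apply mul_le_mul k4 _ (by positivity) (by positivity)
              nlinarith
          _ ≤ _ := by nlinarith [mul_nonneg (sq_nonneg κ) k0]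
    have e2 : g ξ * s ξ ≤ s ξ ^ p + g ξ ^ (1 + 1 / (p : ℝ)) := by
      have k0 := hs0 ξ
      have k1 := hs1 ξ
      have k2 := hg0 ξ
      have k3 : 0 ≤ s ξ ^ p := by positivity
      have k4 : 0 ≤ g ξ ^ (1 + 1 / (p : ℝ)) := Real.rpow_nonneg k2 _
      rcases le_or_gt (s ξ) (g ξ ^ (1 / (p : ℝ))) with h | h
      · have k5 : g ξ * s ξ ≤ g ξ ^ (1 + 1 / (p : ℝ)) := by
          rw [Real.rpow_add_of_nonneg k2 (by norm_num) (by positivity), Real.rpow_one]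
          exact mul_le_mul_of_nonneg_left h k2
        linarith
      · have k5 : g ξ ≤ s ξ ^ p := by
          calc g ξ = (g ξ ^ (1 / (p : ℝ))) ^ p := by
                rw [← Real.rpow_natCast, ← Real.rpow_mul k2, one_div, inv_mul_cancel₀ hp0.ne', Real.rpow_one]
            _ ≤ s ξ ^ p := pow_le_pow_left₀ (Real.rpow_nonneg k2 _) h.le p
        have k6 : g ξ * s ξ ≤ s ξ ^ p := by
          calc g ξ * s ξ ≤ s ξ ^ p * 1 := mul_le_mul k5 k1 k0 k3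
            _ = _ := mul_one _
        linarith
    calc g ξ * (b ξ ^ 2 * s ξ ^ 2) ≤ g ξ * ((4 * δ + κ ^ 2) * s ξ) := mul_le_mul_of_nonneg_left e1 (hg0 ξ)
      _ = (4 * δ + κ ^ 2) * (g ξ * s ξ) := by ring
      _ ≤ _ := mul_le_mul_of_nonneg_left e2 hK
  calc ∑ ξ, g ξ * (b ξ ^ 2 * s ξ ^ 2) ≤ ∑ ξ, (4 * δ + κ ^ 2) * (s ξ ^ p + g ξ ^ (1 + 1 / (p : ℝ))) :=
        sum_le_sum fun ξ _ => hterm ξ
    _ = (4 * δ + κ ^ 2) * (∑ ξ, s ξ ^ p + ∑ ξ, g ξ ^ (1 + 1 / (p : ℝ))) := by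
        rw [← mul_sum, sum_add_distrib]
    _ ≤ _ := mul_le_mul_of_nonneg_left (add_le_add h1 h2) hK

/-- if the Weyl sum is large then the shifts by small multiples of `W` hardly change the phase -/
theorem major (F : ℤ[X]) (hd : 1 ≤ F.natDegree) (hl : 0 < F.leadingCoeff) (B : ℕ) (hB : 1 ≤ B) (δ κ : ℝ)
    (hδ : 0 < δ) (hδ1 : δ ≤ 1) (hκ : 0 < κ) :
    ∃ W₀ : ℕ, 1 ≤ W₀ ∧ ∃ τ₀ : ℝ, 0 < τ₀ ∧ ∀ k x M : ℕ, [NeZero M] → 1 ≤ x → k < M → M ≤ B * x ^ F.natDegree →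
      ∀ W J : ℕ, 1 ≤ J → W₀ ∣ W → ((J * W : ℕ) : ℝ) ≤ τ₀ * k → ∀ ξ : ZMod M,
        δ * x ≤ ‖∑ n ∈ Icc 1 x, (ZMod.stdAddChar (ξ * ((F.eval (n : ℤ) : ℤ) : ZMod M)) : ℂ)‖ →
          ‖1 - nuZ W J ξ‖ ≤ κ := by
  set d := F.natDegree with hdd
  obtain ⟨c, m, hc, hI⟩ := IW_all d hd
  obtain ⟨lc, hlc⟩ : ∃ lc : ℕ, F.leadingCoeff = lc := ⟨F.leadingCoeff.toNat, (Int.toNat_of_nonneg hl.le).symm⟩
  have hlc1 : 1 ≤ lc := by
    rw [hlc] at hl; exact_mod_cast hl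
  set A₀ : ℕ := d.factorial * lc with hA₀
  have hA1 : 1 ≤ A₀ := Nat.mul_pos (Nat.factorial_pos d) hlc1
  have hc1 : (1 : ℝ) ≤ c := by exact_mod_cast hc
  have hu : 1 ≤ 1 / δ := by rw [le_div_iff₀ hδ]; linarith
  set E : ℝ := c * (1 / δ) ^ m with hE
  have hE1 : 1 ≤ E := one_le_mul_of_one_le_of_one_le hc1 (one_le_pow₀ hu)
  have hB1 : (1 : ℝ) ≤ B := by exact_mod_cast hB
  refine ⟨A₀ * ⌊E⌋₊.factorial, Nat.mul_pos hA1 (Nat.factorial_pos _), κ / (8 * E * B), by positivity, ?_⟩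
  intro k x M hM hx hkM hMx W J hJ hW hJW ξ hξ
  have hx0 : (0 : ℝ) < x := by exact_mod_cast hx
  have hMpos : (0 : ℝ) < M := by exact_mod_cast (by omega : 0 < M)
  set α : ℝ := (ξ.val : ℝ) / M with hα
  have hph := Ph_succ _ _ _ (Ph_poly d F le_rfl α)
  have hsum : ∑ n ∈ Icc 1 x, (ZMod.stdAddChar (ξ * ((F.eval (n : ℤ) : ℤ) : ZMod M)) : ℂ) =
      ∑ n ∈ range x, ee ((fun n : ℕ => (fun n : ℕ => α * ((F.eval (n : ℤ) : ℤ) : ℝ)) (n + 1)) n) := by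
    rw [sum_Icc_one]
    apply sum_congr rfl
    intro n _
    rw [chi_eq_int]
    congr 1
    rw [hα]; ring
  rw [hsum] at hξ
  have hS : (x : ℝ) ≤ (1 / δ) * ‖∑ n ∈ range x, ee ((fun n : ℕ => (fun n : ℕ => α * ((F.eval (n : ℤ) : ℤ) : ℝ)) (n + 1)) n)‖ := by
    rw [one_div, inv_mul_eq_div, le_div_iff₀ hδ]
    linarith
  obtain ⟨q, hq1, hq2, a, ha⟩ := hI x (1 / δ) _ _ hx hu hph hS
  have hcoef : F.coeff d = (lc : ℤ) := by rw [hdd, ← hlc]; rfl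
  rw [hcoef] at ha
  rw [← hE] at hq2 ha
  have e1 : (q : ℝ) * (α * ((d.factorial : ℝ) * ((lc : ℤ) : ℝ))) = (q * A₀ : ℕ) * α := by
    rw [hA₀]; push_cast; ring
  rw [e1] at ha
  have hqW : q * A₀ ∣ W := by
    have h1 : q ∣ ⌊E⌋₊.factorial := Nat.dvd_factorial hq1 (Nat.le_floor hq2)
    have h2 : q * A₀ ∣ A₀ * ⌊E⌋₊.factorial := by
      rw [mul_comm q A₀]
      exact Nat.mul_dvd_mul_left A₀ h1
    exact h2.trans hW
  obtain ⟨w, hw⟩ := hqW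
  refine (one_sub_nuZ W J hJ ξ).trans ?_
  have hJ0 : (0 : ℝ) < J := by exact_mod_cast hJ
  calc (1 / (J : ℝ)) * ∑ j ∈ Icc 1 J, ‖1 - (ZMod.stdAddChar (ξ * ((j * W : ℕ) : ZMod M)) : ℂ)‖ ≤
      (1 / (J : ℝ)) * ∑ _j ∈ Icc 1 J, κ := by
        apply mul_le_mul_of_nonneg_left _ (by positivity)
        apply sum_le_sum
        intro j hj
        rw [mem_Icc] at hj
        rw [chi_eq]
        have e2 : (ξ.val : ℝ) * ((j * W : ℕ) : ℝ) / M = ((q * A₀ : ℕ) * α - a) * ((j * w : ℕ) : ℝ) + ((a * (j * w) : ℤ) : ℝ) := by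
          rw [hw, hα]; push_cast; field_simp; ring
        rw [e2, ee_add, ee_int, mul_one]
        refine (norm_one_sub_ee_le _).trans ?_
        rw [abs_mul, abs_of_nonneg (Nat.cast_nonneg (j * w) : (0 : ℝ) ≤ ((j * w : ℕ) : ℝ))]
        have h2 : ((j * w : ℕ) : ℝ) ≤ κ / (8 * E * B) * k := by
          refine le_trans ?_ hJW
          have h3 : w ≤ W := by
            rw [hw]
            exact Nat.le_mul_of_pos_left w (Nat.mul_pos hq1 hA1)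
          exact_mod_cast Nat.mul_le_mul hj.2 h3
        have h4 : (k : ℝ) ≤ B * (x : ℝ) ^ d := by
          have : k ≤ B * x ^ d := by omega
          exact_mod_cast this
        have hxd : 0 < (x : ℝ) ^ d := by positivity
        calc 8 * (|((q * A₀ : ℕ) : ℝ) * α - a| * ((j * w : ℕ) : ℝ)) ≤ 8 * ((E / (x : ℝ) ^ d) * (κ / (8 * E * B) * (B * (x : ℝ) ^ d))) := by
              apply mul_le_mul_of_nonneg_left _ (by norm_num)
              apply mul_le_mul ha _ (Nat.cast_nonneg _) (by positivity)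
              exact h2.trans (mul_le_mul_of_nonneg_left h4 (by positivity))
          _ = κ := by field_simp
    _ = _ := by rw [sum_const, Nat.card_Icc, Nat.add_sub_cancel, nsmul_eq_mul]; field_simp

/-- **The second moment.** -/
theorem second (F : ℤ[X]) (hd : 1 ≤ F.natDegree) (hl : 0 < F.leadingCoeff) (B : ℕ) (hB : 1 ≤ B) (ε : ℝ) (hε : 0 < ε) :
    ∃ W₀ : ℕ, 1 ≤ W₀ ∧ ∃ τ₀ : ℝ, 0 < τ₀ ∧ ∃ k0 : ℕ, 2 ≤ k0 ∧ ∀ k : ℕ, k0 ≤ k →
    ∀ M : ℕ, [NeZero M] → k < M → M ≤ 100 * k → ∀ x : ℕ, 1 ≤ x → M ≤ B * x ^ F.natDegree →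
    ∀ W J : ℕ, 1 ≤ J → W₀ ∣ W → ((J * W : ℕ) : ℝ) ≤ τ₀ * k → ∀ f : ℕ → ℝ, (∀ p, |f p| ≤ 1) →
    ∀ e : ℤ, (e = 1 ∨ e = -1) →
      ∑ a : ZMod M, (∑ n ∈ Icc 1 x, df W J (wZ f k M) (a + ((e * F.eval (n : ℤ) : ℤ) : ZMod M))) ^ 2 ≤
        ε * k * ((x : ℝ) / Real.log k) ^ 2 := by
  obtain ⟨p₀, hp₀, C₁, hC₁, hW⟩ := weyl_moment F hd hl B hB
  have hp0 : (0 : ℝ) < p₀ := by exact_mod_cast hp₀
  have hp1 : (1 : ℝ) ≤ p₀ := by exact_mod_cast hp₀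
  obtain ⟨C₂, hC₂, k1, hk1, hR⟩ := restr_w (1 / (p₀ : ℝ)) (by positivity) (by rw [div_le_one hp0]; exact hp1)
  set δ : ℝ := min 1 (ε / (8 * (C₁ + C₂))) with hδ
  have hδ0 : 0 < δ := by positivity
  have hδ1 : δ ≤ 1 := min_le_left _ _
  have hδ2 : δ * (8 * (C₁ + C₂)) ≤ ε := by
    have := min_le_right 1 (ε / (8 * (C₁ + C₂)))
    rw [← hδ, le_div_iff₀ (by positivity)] at this
    exact this
  obtain ⟨W₀, hW₀, τ₀, hτ₀, hmaj⟩ := major F hd hl B hB δ δ hδ0 hδ1 hδ0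
  refine ⟨W₀, hW₀, τ₀, hτ₀, k1 + 2, by omega, ?_⟩
  intro k hk M hM hkM hM100 x hx hMx W J hJ hWd hJW f hf e he
  have hkpos : (0 : ℝ) < k := by exact_mod_cast (by omega : 0 < k)
  have hlk : 0 < Real.log k := Real.log_pos (by exact_mod_cast (by omega : 1 < k))
  have hMpos : (0 : ℝ) < M := by exact_mod_cast (by omega : 0 < M)
  have hxpos : (0 : ℝ) < x := by exact_mod_cast hx
  set g : ZMod M → ℝ := fun ξ => ‖hat (wZ f k M) ξ‖ ^ 2 * (Real.log k / k) ^ 2 with hg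
  set s : ZMod M → ℝ := fun t => ‖∑ n ∈ Icc 1 x, (ZMod.stdAddChar (t * ((F.eval (n : ℤ) : ℤ) : ZMod M)) : ℂ)‖ / x with hs
  set b : ZMod M → ℝ := fun ξ => ‖1 - nuZ W J ξ‖ with hb
  have hs1 : ∀ t, s t ≤ 1 := by
    intro t
    simp only [hs]
    rw [div_le_one hxpos]
    calc _ ≤ ∑ n ∈ Icc 1 x, ‖(ZMod.stdAddChar (t * ((F.eval (n : ℤ) : ℤ) : ZMod M)) : ℂ)‖ := norm_sum_le _ _
      _ = x := by simp [norm_chi]
  have hs0 : ∀ t, 0 ≤ s t := fun t => by simp only [hs]; positivity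
  have h1 : ∑ t, s t ^ p₀ ≤ C₁ := by
    have h3 : ∑ t : ZMod M, s t ^ p₀ = ∑ t : ZMod M, (fun t : ℕ => (‖∑ n ∈ Icc 1 x, ee ((t : ℝ) * ((F.eval (n : ℤ) : ℤ) : ℝ) / M)‖ / x) ^ p₀) t.val := by
      apply sum_congr rfl
      intro t _
      simp only [hs]
      congr 3
      apply sum_congr rfl
      intro n _
      exact chi_eq_int t _
    rw [h3, sum_val (fun t : ℕ => (‖∑ n ∈ Icc 1 x, ee ((t : ℝ) * ((F.eval (n : ℤ) : ℤ) : ℝ) / M)‖ / x) ^ p₀)]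
    exact hW x M hx (by omega) hMx
  have h2 : ∑ ξ, g ξ ^ (1 + 1 / (p₀ : ℝ)) ≤ C₂ := hR k (by omega) M hkM hM100 f hf
  have hmix := mix g s b p₀ hp₀ δ δ C₁ C₂ hδ0.le hδ0.le (fun ξ => by simp only [hg]; positivity) hs0 hs1
    (fun ξ => norm_nonneg _) (fun ξ => one_sub_nuZ_two W J hJ ξ) (fun ξ hξ => by
      apply hmaj k x M hx hkM hMx W J hJ hWd hJW ξ
      simp only [hs] at hξ
      rwa [le_div_iff₀ hxpos] at hξ) h1 h2
  have hmix2 : ∑ ξ, g ξ * (b ξ ^ 2 * s ξ ^ 2) ≤ ε := by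
    refine hmix.trans (le_trans ?_ hδ2)
    have : (4 * δ + δ ^ 2) ≤ 8 * δ := by nlinarith
    calc (4 * δ + δ ^ 2) * (C₁ + C₂) ≤ 8 * δ * (C₁ + C₂) := mul_le_mul_of_nonneg_right this (by positivity)
      _ = _ := by ring
  have hid := second_id (df W J (wZ f k M)) (Icc 1 x) (fun n : ℕ => ((e * F.eval (n : ℤ) : ℤ) : ZMod M))
  have hnorm : ∀ ξ : ZMod M, ‖∑ i ∈ Icc 1 x, (ZMod.stdAddChar (ξ * ((e * F.eval (i : ℤ) : ℤ) : ZMod M)) : ℂ)‖ = s ξ * x := by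
    intro ξ
    simp only [hs]
    rw [div_mul_cancel₀ _ hxpos.ne']
    rcases he with rfl | rfl
    · simp only [one_mul]
    · have h3 : ∑ i ∈ Icc 1 x, (ZMod.stdAddChar (ξ * ((-1 * F.eval (i : ℤ) : ℤ) : ZMod M)) : ℂ) =
          (starRingEnd ℂ) (∑ i ∈ Icc 1 x, (ZMod.stdAddChar (ξ * ((F.eval (i : ℤ) : ℤ) : ZMod M)) : ℂ)) := by
        rw [map_sum]
        apply sum_congr rfl
        intro i _
        rw [chi_conj]
        congr 1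
        push_cast; ring
      rw [h3, RCLike.norm_conj]
  have hrhs : ∑ ξ, ‖hat (df W J (wZ f k M)) ξ‖ ^ 2 *
      ‖∑ i ∈ Icc 1 x, (ZMod.stdAddChar (ξ * ((e * F.eval (i : ℤ) : ℤ) : ZMod M)) : ℂ)‖ ^ 2 =
      ((k / Real.log k) ^ 2 * x ^ 2) * ∑ ξ, g ξ * (b ξ ^ 2 * s ξ ^ 2) := by
    rw [mul_sum]
    apply sum_congr rfl; intro ξ _
    rw [hnorm, norm_hat_df]
    simp only [hg, hb]
    field_simp
  rw [hrhs] at hid
  set T := ∑ a : ZMod M, (∑ n ∈ Icc 1 x, df W J (wZ f k M) (a + ((e * F.eval (n : ℤ) : ℤ) : ZMod M))) ^ 2 with hT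
  have hT0 : 0 ≤ T := sum_nonneg fun _ _ => sq_nonneg _
  have h6 : (k : ℝ) * T ≤ ((k / Real.log k) ^ 2 * x ^ 2) * ε := by
    calc (k : ℝ) * T ≤ (M : ℝ) * T := mul_le_mul_of_nonneg_right (by exact_mod_cast hkM.le) hT0
      _ = _ := hid
      _ ≤ _ := mul_le_mul_of_nonneg_left hmix2 (by positivity)
  have h7 : ((k / Real.log k) ^ 2 * x ^ 2) * ε = (k : ℝ) * (ε * k * ((x : ℝ) / Real.log k) ^ 2) := by
    field_simp
  rw [h7] at h6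
  exact le_of_mul_le_mul_left h6 hkpos

end Pool.Agent.W5h22.PV
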