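import Mathlib
import Pool.Agent.W5h22.PV.B

set_option autoImplicit false

/-! From `ZMod M` to the integers, and weights with mean value zero in all residue classes. -/

namespace Pool.Agent.W5h22.PV
open Finset Polynomial Filter Topology
open Pool.Agent.Helper602.MK
open Pool.Agent.H373R2.NB

/-- the weight `g` at the primes, zero at all other integers -/
noncomputable def pw (g : ℕ → ℝ) (v : ℤ) : ℝ := if v.toNat.Prime then g v.toNat else 0

/-- the weight `g` at the primes in `(√k, k]`, zero at all other integers -/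
noncomputable def pk (g : ℕ → ℝ) (k : ℕ) (v : ℤ) : ℝ := if v.toNat ∈ PP k then g v.toNat else 0

lemma mem_PP (k p : ℕ) : p ∈ PP k ↔ p ≤ k ∧ p.Prime ∧ k < p ^ 2 := by
  rw [PP, mem_filter, mem_Icc]
  constructor
  · rintro ⟨⟨_, h1⟩, h2, h3⟩; exact ⟨h1, h2, h3⟩
  · rintro ⟨h1, h2, h3⟩; exact ⟨⟨h2.one_lt.le, h1⟩, h2, h3⟩

lemma wZ_int {M : ℕ} [NeZero M] (g : ℕ → ℝ) (k : ℕ) (v : ℤ) (h1 : (k : ℤ) - M < v) (h2 : v < M) :
    wZ g k M (v : ZMod M) = pk g k v := by
  unfold wZ pk
  rcases le_or_gt 0 v with h0 | h0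
  · have e : (v : ZMod M) = ((v.toNat : ℕ) : ZMod M) := by
      rw [← Int.cast_natCast, Int.toNat_of_nonneg h0]
    rw [e, ZMod.val_natCast_of_lt (by omega)]
  · have e : (v : ZMod M) = (((v + M).toNat : ℕ) : ZMod M) := by
      rw [← Int.cast_natCast, Int.toNat_of_nonneg (by omega)]
      push_cast
      rw [ZMod.natCast_self, add_zero]
    rw [e, ZMod.val_natCast_of_lt (by omega)]
    rw [if_neg (by rw [mem_PP]; intro h; omega), if_neg]
    rw [Int.toNat_eq_zero.2 h0.le, mem_PP]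
    rintro ⟨_, h, _⟩
    exact Nat.not_prime_zero h

lemma df_int {M : ℕ} [NeZero M] (g : ℕ → ℝ) (k W J : ℕ) (v : ℤ) (h1 : (k : ℤ) - M < v) (h2 : v + (J * W : ℕ) < M) :
    df W J (wZ g k M) (v : ZMod M) = pk g k v - (1 / (J : ℝ)) * ∑ j ∈ Icc 1 J, pk g k (v + (j * W : ℕ)) := by
  unfold df sm
  rw [wZ_int g k v h1 (by omega)]
  congr 2
  apply sum_congr rfl
  intro j hj
  rw [mem_Icc] at hj
  have h3 : j * W ≤ J * W := Nat.mul_le_mul_right W hj.2
  rw [← wZ_int (M := M) g k (v + (j * W : ℕ)) (by omega) (by omega)]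
  congr 1
  push_cast
  ring

/-- the weighted number of the primes `≤ t` in the residue class `b` -/
noncomputable def GS (g : ℕ → ℝ) (W b t : ℕ) : ℝ :=
  ∑ p ∈ (Icc 1 t).filter (fun p => p.Prime ∧ p ≡ b [MOD W]), g p

/-- mean value zero over the primes in every reduced residue class -/
def MZ (g : ℕ → ℝ) : Prop := ∀ W b : ℕ, 1 ≤ W → Nat.Coprime b W →
  Tendsto (fun t : ℕ => GS g W b t * Real.log t / t) atTop (𝓝 0)

lemma evt_div_log (K : ℝ) (c : ℝ) (hc : 0 < c) : ∀ᶠ X : ℕ in atTop, K ≤ c * (X / Real.log X) := by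
  have h1 : Tendsto (fun x : ℝ => x / Real.log x) atTop atTop := by
    have h2 := Real.isLittleO_log_id_atTop
    have h3 : Tendsto (fun x : ℝ => Real.log x / x) atTop (𝓝[>] 0) := by
      rw [tendsto_nhdsWithin_iff]
      refine ⟨h2.tendsto_div_nhds_zero, ?_⟩
      filter_upwards [eventually_gt_atTop 1] with x hx
      exact div_pos (Real.log_pos hx) (by linarith)
    have h4 := h3.inv_tendsto_nhdsGT_zero
    refine h4.congr (fun x => ?_)
    simp only [Pi.inv_apply, inv_div]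
  have h2 := (h1.comp tendsto_natCast_atTop_atTop).eventually_ge_atTop (K / c)
  filter_upwards [h2] with X hX
  rw [div_le_iff₀ hc] at hX
  simp only [Function.comp] at hX
  linarith

lemma evt_sqrt_log (K : ℝ) (c : ℝ) (hc : 0 < c) :
    ∀ᶠ X : ℕ in atTop, K * (Real.sqrt (3 * X) + 1) * Real.log X ≤ c * X := by
  have h1 := (isLittleO_log_rpow_atTop (show (0 : ℝ) < 1 / 2 by norm_num)).bound
    (show 0 < c / (4 * (|K| + 1)) by positivity)
  have h2 := tendsto_natCast_atTop_atTop (R := ℝ) |>.eventually h1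
  filter_upwards [h2, eventually_ge_atTop 1] with X hX hX1
  have hX1r : (1 : ℝ) ≤ X := by exact_mod_cast hX1
  have hX0 : (0 : ℝ) ≤ X := by linarith
  have hlog0 : 0 ≤ Real.log (X : ℝ) := Real.log_natCast_nonneg X
  rw [Real.norm_of_nonneg hlog0, Real.norm_of_nonneg (by positivity), ← Real.sqrt_eq_rpow] at hX
  have hs : 1 ≤ Real.sqrt X := by
    rw [Real.one_le_sqrt]; exact hX1r
  have h3 : Real.sqrt (3 * X) ≤ 3 * Real.sqrt X := by
    rw [Real.sqrt_mul (by norm_num)]
    apply mul_le_mul_of_nonneg_right _ (Real.sqrt_nonneg _)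
    rw [Real.sqrt_le_left (by norm_num)]; norm_num
  have h4 : Real.sqrt X * Real.sqrt X = X := Real.mul_self_sqrt hX0
  have hK : K ≤ |K| + 1 := by linarith [le_abs_self K]
  calc K * (Real.sqrt (3 * X) + 1) * Real.log X ≤ (|K| + 1) * (4 * Real.sqrt X) * (c / (4 * (|K| + 1)) * Real.sqrt X) := by
        apply mul_le_mul _ hX hlog0 (by positivity)
        apply mul_le_mul hK (by linarith) (by positivity) (by positivity)
    _ = c * (Real.sqrt X * Real.sqrt X) := by field_simp
    _ = c * X := by rw [h4]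

/-- uniform smallness of the weighted counts in one residue class -/
lemma uni (g : ℕ → ℝ) (hg : ∀ p, |g p| ≤ 1) (hz : MZ g) (W b : ℕ) (hW : 1 ≤ W) (ε : ℝ) (hε : 0 < ε) :
    ∀ᶠ X : ℕ in atTop, ∀ t : ℕ, t ≤ 3 * X → |GS g W b t| ≤ ε * (X / Real.log X) := by
  have htriv : ∀ (S : Finset ℕ), |∑ p ∈ S, g p| ≤ #S := by
    intro S
    calc |∑ p ∈ S, g p| ≤ ∑ p ∈ S, |g p| := abs_sum_le_sum_abs _ _
      _ ≤ ∑ _p ∈ S, (1 : ℝ) := sum_le_sum fun p _ => hg p
      _ = #S := by simp
  by_cases hb : Nat.Coprime b W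
  · have h1 := hz W b hW hb
    have h2 := (Metric.tendsto_nhds.1 h1) (ε / 3) (by positivity)
    obtain ⟨t₀, ht₀⟩ := eventually_atTop.1 h2
    filter_upwards [evt_div_log (t₀ + 3) ε hε, eventually_ge_atTop 3] with X hX hX3
    intro t ht
    have hX3r : (3 : ℝ) ≤ X := by exact_mod_cast hX3
    have hlX : 0 < Real.log X := Real.log_pos (by linarith)
    rcases le_or_gt t (t₀ + 3) with h | h
    · refine (htriv _).trans ?_
      have h3 : #((Icc 1 t).filter (fun p => p.Prime ∧ p ≡ b [MOD W])) ≤ t := by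
        refine (card_filter_le _ _).trans ?_
        rw [Nat.card_Icc]; omega
      have h4 : (#((Icc 1 t).filter (fun p => p.Prime ∧ p ≡ b [MOD W])) : ℝ) ≤ t₀ + 3 := by
        exact_mod_cast h3.trans h
      linarith
    · have h3 := ht₀ t (by omega)
      rw [Real.dist_eq, sub_zero, abs_div, abs_mul] at h3
      have ht3 : (3 : ℝ) < t := by exact_mod_cast (by omega : 3 < t)
      have hlt : 0 < Real.log t := Real.log_pos (by linarith)
      rw [abs_of_pos hlt, abs_of_pos (by linarith : (0 : ℝ) < t), div_lt_iff₀ (by linarith)] at h3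
      have h4 : |GS g W b t| ≤ ε / 3 * (t / Real.log t) := by
        rw [← mul_div_assoc, le_div_iff₀ hlt]
        exact h3.le
      refine h4.trans ?_
      have htX : (t : ℝ) ≤ 3 * X := by exact_mod_cast ht
      have hexp : Real.exp 1 ≤ 3 := by
        have := Real.exp_one_lt_d9; linarith
      have h5 : Real.log (3 * X) / (3 * X) ≤ Real.log t / t :=
        Real.log_div_self_antitoneOn (show Real.exp 1 ≤ (t : ℝ) by linarith) (show Real.exp 1 ≤ 3 * (X : ℝ) by linarith) htX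
      have hl3 : Real.log X ≤ Real.log (3 * X) := Real.log_le_log (by linarith) (by linarith)
      have h6 : t / Real.log t ≤ 3 * (X / Real.log X) := by
        have h7 : Real.log X / (3 * X) ≤ Real.log t / t := le_trans (div_le_div_of_nonneg_right hl3 (by linarith)) h5
        have h8 : 0 < Real.log X / (3 * X) := by positivity
        have h9 := one_div_le_one_div_of_le h8 h7
        rw [one_div_div, one_div_div] at h9
        rw [← mul_div_assoc]; exact h9
      calc ε / 3 * (t / Real.log t) ≤ ε / 3 * (3 * (X / Real.log X)) := mul_le_mul_of_nonneg_left h6 (by positivity)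
        _ = _ := by ring
  · filter_upwards [evt_div_log W ε hε] with X hX
    intro t _
    refine (htriv _).trans (le_trans ?_ hX)
    have h1 : (Icc 1 t).filter (fun p => p.Prime ∧ p ≡ b [MOD W]) ⊆ Icc 1 W := by
      intro p hp
      rw [mem_filter, mem_Icc] at hp
      obtain ⟨⟨h1, _⟩, h2, h3⟩ := hp
      rw [mem_Icc]
      refine ⟨h1, ?_⟩
      have h4 : Nat.gcd p W = Nat.gcd b W := Nat.ModEq.gcd_eq h3
      by_contra h5
      apply hb
      unfold Nat.Coprime
      rw [← h4]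
      have h6 : ¬ p ∣ W := fun h => h5 (Nat.le_of_dvd hW h)
      exact (Nat.Prime.coprime_iff_not_dvd h2).2 h6
    have h2 := card_le_card h1
    rw [Nat.card_Icc, Nat.add_sub_cancel] at h2
    exact_mod_cast h2

/-- the sums over the shifts are small for a weight of mean value zero -/
lemma shifts_small (g : ℕ → ℝ) (hg : ∀ p, |g p| ≤ 1) (hz : MZ g) (W : ℕ) (hW : 1 ≤ W) (ε : ℝ) (hε : 0 < ε) :
    ∀ᶠ X : ℕ in atTop, ∀ (v : ℤ) (J : ℕ), v + (J * W : ℕ) ≤ 3 * X →
      |∑ j ∈ Icc 1 J, pk g (3 * X) (v + (j * W : ℕ))| ≤ ε * (X / Real.log X) := by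
  have h1 : ∀ᶠ X : ℕ in atTop, ∀ b ∈ range W, ∀ t : ℕ, t ≤ 3 * X → |GS g W b t| ≤ ε / 3 * (X / Real.log X) := by
    rw [eventually_all_finset]
    intro b _
    exact uni g hg hz W b hW (ε / 3) (by positivity)
  filter_upwards [h1, evt_sqrt_log 1 (ε / 3) (by positivity), eventually_ge_atTop 3] with X hX hX2 hX3
  intro v J hv
  have hX3r : (3 : ℝ) ≤ X := by exact_mod_cast hX3
  have hlX : 0 < Real.log X := Real.log_pos (by linarith)
  set b : ℕ := (v % W).toNat with hb
  have hWz : (0 : ℤ) < W := by exact_mod_cast hW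
  have hvb : ((b : ℕ) : ℤ) = v % W := Int.toNat_of_nonneg (Int.emod_nonneg v hWz.ne')
  have hbW : b < W := by
    have := Int.emod_lt_of_pos v hWz
    omega
  set A := (Icc 1 (v + (J * W : ℕ)).toNat).filter (fun p => p.Prime ∧ p ≡ b [MOD W]) with hA
  set B := (Icc 1 v.toNat).filter (fun p => p.Prime ∧ p ≡ b [MOD W]) with hB
  have hBA : B ⊆ A := by
    intro p hp
    rw [hB, mem_filter, mem_Icc] at hp
    rw [hA, mem_filter, mem_Icc]
    exact ⟨⟨hp.1.1, by omega⟩, hp.2⟩
  have hmod : ∀ p : ℕ, p ≡ b [MOD W] ↔ (W : ℤ) ∣ (p : ℤ) - v := by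
    intro p
    rw [← Int.natCast_modEq_iff, hvb]
    constructor
    · intro h
      have h2 : (p : ℤ) ≡ v [ZMOD W] := h.trans (Int.mod_modEq v W)
      exact (Int.modEq_iff_dvd.1 h2.symm)
    · intro h
      exact (Int.modEq_iff_dvd.2 h).symm.trans (Int.mod_modEq v W).symm
  -- the sum over `j` as a sum over primes
  have hsum : ∑ j ∈ Icc 1 J, pk g (3 * X) (v + (j * W : ℕ)) = ∑ p ∈ (A \ B).filter (fun p => p ∈ PP (3 * X)), g p := by
    unfold pk
    rw [← sum_filter]
    apply sum_bij (fun (j : ℕ) _ => (v + (j * W : ℕ)).toNat)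
    · intro j hj
      rw [mem_filter, mem_Icc] at hj
      have hp := (mem_PP _ _).1 hj.2
      have hpos : 0 < v + (j * W : ℕ) := by
        have := hp.2.1.pos
        omega
      have hjW : W ≤ j * W := Nat.le_mul_of_pos_left W (by omega)
      have hjJ : j * W ≤ J * W := Nat.mul_le_mul_right W hj.1.2
      rw [mem_filter, Finset.mem_sdiff, hA, hB, mem_filter, mem_filter, mem_Icc, mem_Icc]
      have hm : (v + (j * W : ℕ)).toNat ≡ b [MOD W] := by
        rw [hmod, Int.toNat_of_nonneg hpos.le]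
        refine ⟨j, ?_⟩
        push_cast; ring
      refine ⟨⟨⟨⟨hp.2.1.one_lt.le, by omega⟩, hp.2.1, hm⟩, ?_⟩, hj.2⟩
      rintro ⟨⟨_, h⟩, _⟩
      omega
    · intro i hi j hj hij
      rw [mem_filter, mem_Icc] at hi hj
      have hp := ((mem_PP _ _).1 hi.2).2.1.pos
      have hp' := ((mem_PP _ _).1 hj.2).2.1.pos
      have : i * W = j * W := by omega
      exact Nat.eq_of_mul_eq_mul_right hW this
    · intro p hp
      rw [mem_filter, Finset.mem_sdiff, hA, hB, mem_filter, mem_filter, mem_Icc, mem_Icc] at hp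
      obtain ⟨⟨⟨⟨hp1, hp2⟩, hpp, hpb⟩, hpn⟩, hpk⟩ := hp
      obtain ⟨j, hj⟩ := (hmod p).1 hpb
      have hpv : v < p := by
        by_contra hcon
        exact hpn ⟨⟨hp1, by omega⟩, hpp, hpb⟩
      have hj0 : 0 < j := by
        by_contra hcon
        have : (W : ℤ) * j ≤ 0 := mul_nonpos_of_nonneg_of_nonpos hWz.le (by omega)
        omega
      have hpJ : (p : ℤ) ≤ v + (J * W : ℕ) := by
        omega
      have hjJ : j ≤ J := by
        by_contra hcon
        have h3 : (W : ℤ) * (J + 1) ≤ W * j := mul_le_mul_of_nonneg_left (by omega) hWz.le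
        have h4 : ((J * W : ℕ) : ℤ) = W * J := by push_cast; ring
        rw [h4] at hpJ
        nlinarith
      have hval : v + ((j.toNat * W : ℕ) : ℤ) = p := by
        push_cast
        rw [Int.toNat_of_nonneg hj0.le]
        linarith
      refine ⟨j.toNat, ?_, ?_⟩
      · rw [mem_filter, mem_Icc]
        refine ⟨⟨by omega, by omega⟩, ?_⟩
        rw [hval, Int.toNat_natCast]; exact hpk
      · rw [hval, Int.toNat_natCast]
    · intro j _
      rfl
  have htriv : ∀ (S : Finset ℕ), |∑ p ∈ S, g p| ≤ #S := by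
    intro S
    calc |∑ p ∈ S, g p| ≤ ∑ p ∈ S, |g p| := abs_sum_le_sum_abs _ _
      _ ≤ ∑ _p ∈ S, (1 : ℝ) := sum_le_sum fun p _ => hg p
      _ = #S := by simp
  have e1 : ∑ p ∈ A \ B, g p = ∑ p ∈ A, g p - ∑ p ∈ B, g p := by
    rw [← sum_sdiff hBA]; ring
  have e2 : ∑ p ∈ (A \ B).filter (fun p => p ∈ PP (3 * X)), g p = ∑ p ∈ A, g p - ∑ p ∈ B, g p -
      ∑ p ∈ (A \ B).filter (fun p => p ∉ PP (3 * X)), g p := by
    rw [← e1, ← sum_filter_add_sum_filter_not (A \ B) (fun p => p ∈ PP (3 * X))]; ring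
  have hsm : (#((A \ B).filter (fun p => p ∉ PP (3 * X))) : ℝ) ≤ ε / 3 * (X / Real.log X) := by
    have h3 : (A \ B).filter (fun p => p ∉ PP (3 * X)) ⊆ Icc 1 (Nat.sqrt (3 * X)) := by
      intro p hp
      rw [mem_filter, Finset.mem_sdiff, hA, mem_filter, mem_Icc] at hp
      obtain ⟨⟨⟨⟨hp1, hp2⟩, hpp, _⟩, _⟩, hpk⟩ := hp
      rw [mem_PP] at hpk
      rw [mem_Icc]
      refine ⟨hp1, Nat.le_sqrt'.2 ?_⟩
      by_contra hcon
      exact hpk ⟨by omega, hpp, by omega⟩
    have h4 := card_le_card h3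
    rw [Nat.card_Icc, Nat.add_sub_cancel] at h4
    have h5 : (#((A \ B).filter (fun p => p ∉ PP (3 * X))) : ℝ) ≤ Real.sqrt (3 * X) := by
      calc (#((A \ B).filter (fun p => p ∉ PP (3 * X))) : ℝ) ≤ (Nat.sqrt (3 * X) : ℝ) := by exact_mod_cast h4
        _ ≤ Real.sqrt ((3 * X : ℕ) : ℝ) := Real.nat_sqrt_le_real_sqrt
        _ = _ := by push_cast; rfl
    refine h5.trans ?_
    rw [← mul_div_assoc, le_div_iff₀ hlX]
    rw [one_mul] at hX2
    nlinarith [Real.sqrt_nonneg (3 * (X : ℝ))]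
  rw [hsum, e2]
  have hAs := hX b (mem_range.2 hbW) (v + (J * W : ℕ)).toNat (by omega)
  have hBs := hX b (mem_range.2 hbW) v.toNat (by omega)
  have hN := (htriv ((A \ B).filter (fun p => p ∉ PP (3 * X)))).trans hsm
  unfold GS at hAs hBs
  rw [← hA] at hAs
  rw [← hB] at hBs
  rw [abs_le] at hAs hBs hN ⊢
  constructor <;> linarith [hAs.1, hAs.2, hBs.1, hBs.2, hN.1, hN.2]

end Pool.Agent.W5h22.PV
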