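import Mathlib
import Pool.Agent.W5h22.PV.C

set_option autoImplicit false

/-! Weights of mean value zero over the primes along the values `± (a + F(n))`, for almost all `a`. -/

namespace Pool.Agent.W5h22.PV
open Finset Polynomial Filter Topology
open Pool.Agent.Helper602.MK
open Pool.Agent.H373R2.NB

lemma markov {ι : Type*} (S : Finset ι) (h : ι → ℝ) (lam : ℝ) (h0 : ∀ a ∈ S, 0 ≤ h a) :
    (#(S.filter (fun a => lam < h a)) : ℝ) * lam ≤ ∑ a ∈ S, h a := by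
  calc (#(S.filter (fun a => lam < h a)) : ℝ) * lam = ∑ _a ∈ S.filter (fun a => lam < h a), lam := by
        rw [sum_const, nsmul_eq_mul]
    _ ≤ ∑ a ∈ S.filter (fun a => lam < h a), h a := sum_le_sum fun a ha => (mem_filter.1 ha).2.le
    _ ≤ _ := sum_le_sum_of_subset_of_nonneg (filter_subset _ _) (fun a ha _ => h0 a ha)

/-- the sum over the shifts `|a| ≤ N` is at most the sum over `ZMod M` -/
lemma sum_embed {M : ℕ} [NeZero M] (N : ℕ) (hM : 2 * N < M) (e : ℤ) (he : e = 1 ∨ e = -1) (G : ZMod M → ℝ)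
    (hG : ∀ a, 0 ≤ G a) : ∑ a ∈ Icc (-(N : ℤ)) N, G ((e * a : ℤ) : ZMod M) ≤ ∑ a : ZMod M, G a := by
  have hinj : Set.InjOn (fun a : ℤ => ((e * a : ℤ) : ZMod M)) (Icc (-(N : ℤ)) N : Finset ℤ) := by
    intro a ha b hb hab
    rw [mem_coe, mem_Icc] at ha hb
    simp only at hab
    rw [ZMod.intCast_eq_intCast_iff_dvd_sub] at hab
    obtain ⟨c, hc⟩ := hab
    have hc0 : c = 0 := by
      by_contra hne
      have h1 : (M : ℤ) ≤ |(M : ℤ) * c| := by
        rw [abs_mul, abs_of_nonneg (by omega : (0 : ℤ) ≤ M)]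
        have h2 : 1 ≤ |c| := Int.one_le_abs hne
        nlinarith
      rw [← hc] at h1
      rcases he with rfl | rfl
      · have h3 : |1 * b - 1 * a| ≤ 2 * N := by rw [abs_le]; constructor <;> omega
        omega
      · have h3 : |-1 * b - -1 * a| ≤ 2 * N := by rw [abs_le]; constructor <;> omega
        omega
    rw [hc0, mul_zero] at hc
    rcases he with rfl | rfl <;> omega
  rw [← sum_image (f := G) (fun a ha b hb h => hinj ha hb h)]
  exact sum_le_sum_of_subset_of_nonneg (subset_univ _) (fun a _ _ => hG a)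

/-- the small prime values are rare on average -/
lemma small_values (F : ℤ[X]) (N K x : ℕ) (e : ℤ) (he : e = 1 ∨ e = -1) :
    ∑ a ∈ Icc (-(N : ℤ)) N, (#((Icc 1 x).filter (fun n : ℕ => 1 ≤ e * (a + F.eval (n : ℤ)) ∧ e * (a + F.eval (n : ℤ)) ≤ K)) : ℝ) ≤
      x * K := by
  have h1 : ∀ a : ℤ, (#((Icc 1 x).filter (fun n : ℕ => 1 ≤ e * (a + F.eval (n : ℤ)) ∧ e * (a + F.eval (n : ℤ)) ≤ K)) : ℝ) =
      ∑ n ∈ Icc 1 x, if 1 ≤ e * (a + F.eval (n : ℤ)) ∧ e * (a + F.eval (n : ℤ)) ≤ K then (1 : ℝ) else 0 := by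
    intro a
    rw [← sum_filter, sum_const, nsmul_eq_mul, mul_one]
  simp_rw [h1]
  rw [sum_comm]
  have h2 : ∀ n ∈ Icc 1 x, (∑ a ∈ Icc (-(N : ℤ)) N, if 1 ≤ e * (a + F.eval (n : ℤ)) ∧ e * (a + F.eval (n : ℤ)) ≤ K then (1 : ℝ) else 0) ≤ K := by
    intro n _
    rw [← sum_filter, sum_const, nsmul_eq_mul, mul_one]
    have h3 : #((Icc (-(N : ℤ)) N).filter (fun a => 1 ≤ e * (a + F.eval (n : ℤ)) ∧ e * (a + F.eval (n : ℤ)) ≤ K)) ≤
        #(Icc (1 : ℤ) K) := by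
      apply card_le_card_of_injOn (fun a => e * (a + F.eval (n : ℤ)))
      · intro a ha
        rw [mem_coe, mem_filter] at ha
        rw [mem_coe, mem_Icc]
        exact ha.2
      · intro a _ b _ hab
        simp only at hab
        rcases he with rfl | rfl <;> omega
    rw [Int.card_Icc] at h3
    have h4 : ((K : ℤ) + 1 - 1).toNat = K := by omega
    rw [h4] at h3
    exact_mod_cast h3
  calc _ ≤ ∑ _n ∈ Icc 1 x, (K : ℝ) := sum_le_sum h2
    _ = _ := by rw [sum_const, Nat.card_Icc, Nat.add_sub_cancel, nsmul_eq_mul]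

lemma pw_sub_pk (g : ℕ → ℝ) (hg : ∀ p, |g p| ≤ 1) (k : ℕ) (v : ℤ) (hv : v ≤ k) :
    |pw g v - pk g k v| ≤ if 1 ≤ v ∧ v ≤ (Nat.sqrt k : ℕ) then 1 else 0 := by
  unfold pw pk
  by_cases hp : v.toNat.Prime
  · rw [if_pos hp]
    by_cases hk : v.toNat ∈ PP k
    · rw [if_pos hk, sub_self, abs_zero]
      split_ifs <;> norm_num
    · rw [if_neg hk, sub_zero, if_pos]
      · exact hg _
      · rw [mem_PP] at hk
        have hpos := hp.pos
        have h1 : v.toNat ^ 2 ≤ k := by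
          by_contra hcon
          exact hk ⟨by omega, hp, by omega⟩
        have h2 := Nat.le_sqrt'.2 h1
        omega
  · rw [if_neg hp, if_neg (fun h => hp ((mem_PP _ _).1 h).2.1), sub_self, abs_zero]
    split_ifs <;> norm_num

/-- **Fixed length.** -/
theorem fixed (F : ℤ[X]) (hd : 1 ≤ F.natDegree) (hl : 0 < F.leadingCoeff) (B : ℕ) (hB : 1 ≤ B) (g : ℕ → ℝ)
    (hg : ∀ p, |g p| ≤ 1) (hz : MZ g) (ε : ℝ) (hε : 0 < ε) :
    ∀ᶠ N : ℕ in atTop, ∀ x : ℕ, 1 ≤ x → N ≤ B * x ^ F.natDegree → (∀ n ∈ Icc 1 x, |F.eval (n : ℤ)| ≤ N) →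
      ∀ e : ℤ, (e = 1 ∨ e = -1) →
        (#((Icc (-(N : ℤ)) N).filter (fun a => ε * (x / Real.log N) < |∑ n ∈ Icc 1 x, pw g (e * (a + F.eval (n : ℤ)))|)) : ℝ) ≤ ε * N := by
  obtain ⟨W₀, hW₀, τ₀, hτ₀, k0, hk0, hsec⟩ := second F hd hl (7 * B) (by omega) (ε ^ 3 / 200) (by positivity)
  set τ : ℝ := min τ₀ 1 with hτ
  have hτ0 : 0 < τ := by positivity
  have hτ1 : τ ≤ 1 := min_le_right _ _
  have hττ : τ ≤ τ₀ := min_le_left _ _
  have hW0r : (1 : ℝ) ≤ W₀ := by exact_mod_cast hW₀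
  have hW0p : (0 : ℝ) < W₀ := by linarith
  have hevN : ∀ᶠ N : ℕ in atTop, 2 * W₀ / τ ≤ N := tendsto_natCast_atTop_atTop.eventually_ge_atTop _
  filter_upwards [shifts_small g hg hz W₀ hW₀ (ε * τ / (8 * W₀)) (by positivity), evt_sqrt_log (4 / ε) (ε / 4) (by positivity),
    hevN, eventually_ge_atTop (k0 + 3)] with N hsh hsq hN1 hN2
  intro x hx hNx hFx e he
  have hN3 : (3 : ℝ) ≤ N := by exact_mod_cast (by omega : 3 ≤ N)
  have hN0 : (0 : ℝ) < N := by linarith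
  have hlN : 0 < Real.log N := Real.log_pos (by linarith)
  have hx0 : (0 : ℝ) < x := by exact_mod_cast hx
  have : NeZero (7 * N) := ⟨by omega⟩
  set J : ℕ := ⌊τ * N / W₀⌋₊ with hJ
  have hJle : (J : ℝ) ≤ τ * N / W₀ := Nat.floor_le (by positivity)
  have hge2 : 2 ≤ τ * N / W₀ := by
    rw [le_div_iff₀ hW0p]
    rw [div_le_iff₀ hτ0] at hN1
    linarith
  have hJge : τ * N / W₀ / 2 ≤ J := by
    have := Nat.lt_floor_add_one (τ * N / W₀)
    rw [← hJ] at this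
    linarith
  have hJ1 : 1 ≤ J := by
    have : (1 : ℝ) ≤ J := by linarith
    exact_mod_cast this
  have hJ0 : (0 : ℝ) < J := by exact_mod_cast hJ1
  have hJW : ((J * W₀ : ℕ) : ℝ) ≤ τ * N := by
    push_cast
    rw [le_div_iff₀ hW0p] at hJle
    exact hJle
  have hJWN : J * W₀ ≤ N := by
    have : ((J * W₀ : ℕ) : ℝ) ≤ N := hJW.trans (by nlinarith)
    exact_mod_cast this
  have hM1 : N ≤ B * x ^ F.natDegree := hNx
  have hs := hsec (3 * N) (by omega) (7 * N) (by omega) (by omega) x hx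
    (by calc 7 * N ≤ 7 * (B * x ^ F.natDegree) := Nat.mul_le_mul_left 7 hM1
      _ = _ := by ring) W₀ J hJ1 dvd_rfl (by
        push_cast
        push_cast at hJW
        calc (J : ℝ) * W₀ ≤ τ * N := hJW
          _ ≤ τ₀ * (3 * N) := by nlinarith) g hg e he
  -- the difference for an integer `a`
  set D : ℤ → ℝ := fun a => ∑ n ∈ Icc 1 x, df W₀ J (wZ g (3 * N) (7 * N)) (((e * a : ℤ) : ZMod (7 * N)) + ((e * F.eval (n : ℤ) : ℤ) : ZMod (7 * N))) with hD
  have hDsq : ∑ a ∈ Icc (-(N : ℤ)) N, D a ^ 2 ≤ 3 * (ε ^ 3 / 200) * N * (x / Real.log N) ^ 2 := by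
    have h1 := sum_embed (M := 7 * N) N (by omega) e he (fun a => (∑ n ∈ Icc 1 x, df W₀ J (wZ g (3 * N) (7 * N)) (a + ((e * F.eval (n : ℤ) : ℤ) : ZMod (7 * N)))) ^ 2)
      (fun a => sq_nonneg _)
    refine h1.trans (hs.trans ?_)
    push_cast
    have h2 : Real.log N ≤ Real.log (3 * N) := Real.log_le_log hN0 (by linarith)
    have h3 : (x / Real.log (3 * N)) ^ 2 ≤ (x / Real.log N) ^ 2 := by
      apply pow_le_pow_left₀ (div_nonneg hx0.le (hlN.le.trans h2))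
      exact div_le_div_of_nonneg_left hx0.le hlN h2
    calc ε ^ 3 / 200 * (3 * (N : ℝ)) * (x / Real.log (3 * N)) ^ 2 ≤ ε ^ 3 / 200 * (3 * (N : ℝ)) * (x / Real.log N) ^ 2 :=
          mul_le_mul_of_nonneg_left h3 (by positivity)
      _ = _ := by ring
  set c : ℤ → ℝ := fun a => (#((Icc 1 x).filter (fun n : ℕ => 1 ≤ e * (a + F.eval (n : ℤ)) ∧ e * (a + F.eval (n : ℤ)) ≤ (Nat.sqrt (3 * N) : ℕ))) : ℝ) with hc
  have hcs : ∑ a ∈ Icc (-(N : ℤ)) N, c a ≤ x * Real.sqrt (3 * N) := by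
    refine (small_values F N (Nat.sqrt (3 * N)) x e he).trans ?_
    apply mul_le_mul_of_nonneg_left _ hx0.le
    calc (Nat.sqrt (3 * N) : ℝ) ≤ Real.sqrt ((3 * N : ℕ) : ℝ) := Real.nat_sqrt_le_real_sqrt
      _ = _ := by push_cast; rfl
  set lam : ℝ := ε / 4 * (x / Real.log N) with hlam
  have hlam0 : 0 < lam := by positivity
  have hB1 : (#((Icc (-(N : ℤ)) N).filter (fun a => lam ^ 2 < D a ^ 2)) : ℝ) ≤ ε / 4 * N := by
    have h1 := (markov (Icc (-(N : ℤ)) N) (fun a => D a ^ 2) (lam ^ 2) (fun a _ => sq_nonneg _)).trans hDsq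
    have h2 : 3 * (ε ^ 3 / 200) * N * (x / Real.log N) ^ 2 ≤ (ε / 4 * N) * lam ^ 2 := by
      rw [hlam]
      have h3 : 0 ≤ ε ^ 3 * N * (x / Real.log N) ^ 2 := by positivity
      have h4 : (ε / 4 * N) * (ε / 4 * (x / Real.log N)) ^ 2 = (1 / 64) * (ε ^ 3 * N * (x / Real.log N) ^ 2) := by ring
      rw [h4]
      linarith
    exact le_of_mul_le_mul_right (h1.trans h2) (pow_pos hlam0 2)
  have hB2 : (#((Icc (-(N : ℤ)) N).filter (fun a => lam < c a)) : ℝ) ≤ ε / 4 * N := by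
    have h1 := (markov (Icc (-(N : ℤ)) N) c lam (fun a _ => Nat.cast_nonneg _)).trans hcs
    have h2 : x * Real.sqrt (3 * N) ≤ (ε / 4 * N) * lam := by
      rw [hlam]
      have h3 : (4 / ε) * Real.sqrt (3 * N) * Real.log N ≤ ε / 4 * N := by
        refine le_trans ?_ hsq
        apply mul_le_mul_of_nonneg_right _ hlN.le
        apply mul_le_mul_of_nonneg_left _ (by positivity)
        linarith
      calc (x : ℝ) * Real.sqrt (3 * N) = ((4 / ε) * Real.sqrt (3 * N) * Real.log N) * (ε / 4 * (x / Real.log N)) := by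
            field_simp
        _ ≤ _ := mul_le_mul_of_nonneg_right h3 (by positivity)
    exact le_of_mul_le_mul_right (h1.trans h2) hlam0
  have hsub : (Icc (-(N : ℤ)) N).filter (fun a => ε * (x / Real.log N) < |∑ n ∈ Icc 1 x, pw g (e * (a + F.eval (n : ℤ)))|) ⊆
      (Icc (-(N : ℤ)) N).filter (fun a => lam ^ 2 < D a ^ 2) ∪ (Icc (-(N : ℤ)) N).filter (fun a => lam < c a) := by
    intro a ha
    rw [mem_filter] at ha
    obtain ⟨haN, hbig⟩ := ha
    rw [mem_union, mem_filter, mem_filter]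
    by_contra hcon
    push Not at hcon
    have hD1 := hcon.1 haN
    have hc1 := hcon.2 haN
    rw [mem_Icc] at haN
    have hD2 : |D a| ≤ lam := abs_le_of_sq_le_sq hD1 hlam0.le
    have hv : ∀ n ∈ Icc 1 x, -(2 * N : ℤ) ≤ e * (a + F.eval (n : ℤ)) ∧ e * (a + F.eval (n : ℤ)) ≤ 2 * N := by
      intro n hn
      have h1 := abs_le.1 (hFx n hn)
      rcases he with rfl | rfl <;> constructor <;> omega
    have hDa : D a = ∑ n ∈ Icc 1 x, (pk g (3 * N) (e * (a + F.eval (n : ℤ))) -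
        (1 / (J : ℝ)) * ∑ j ∈ Icc 1 J, pk g (3 * N) (e * (a + F.eval (n : ℤ)) + (j * W₀ : ℕ))) := by
      simp only [hD]
      apply sum_congr rfl
      intro n hn
      have h1 := hv n hn
      rw [← df_int (M := 7 * N) g (3 * N) W₀ J (e * (a + F.eval (n : ℤ))) (by push_cast; omega) (by push_cast at *; omega)]
      congr 1
      push_cast; ring
    have hs1 : |∑ n ∈ Icc 1 x, (1 / (J : ℝ)) * ∑ j ∈ Icc 1 J, pk g (3 * N) (e * (a + F.eval (n : ℤ)) + (j * W₀ : ℕ))| ≤ lam := by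
      calc _ ≤ ∑ n ∈ Icc 1 x, |(1 / (J : ℝ)) * ∑ j ∈ Icc 1 J, pk g (3 * N) (e * (a + F.eval (n : ℤ)) + (j * W₀ : ℕ))| := abs_sum_le_sum_abs _ _
        _ ≤ ∑ _n ∈ Icc 1 x, ε / 4 * (1 / Real.log N) := by
            apply sum_le_sum
            intro n hn
            have h1 := hv n hn
            have h2 := hsh (e * (a + F.eval (n : ℤ))) J (by push_cast at *; omega)
            rw [abs_mul, abs_of_pos (by positivity : (0 : ℝ) < 1 / (J : ℝ)), one_div, inv_mul_le_iff₀ hJ0]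
            refine h2.trans ?_
            calc ε * τ / (8 * W₀) * (N / Real.log N) = (τ * N / W₀ / 2) * (ε / 4 * (1 / Real.log N)) := by
                  field_simp; norm_num
              _ ≤ J * (ε / 4 * (1 / Real.log N)) := mul_le_mul_of_nonneg_right hJge (by positivity)
        _ = lam := by
            rw [sum_const, Nat.card_Icc, Nat.add_sub_cancel, nsmul_eq_mul, hlam]; ring
    have hs2 : |∑ n ∈ Icc 1 x, (pw g (e * (a + F.eval (n : ℤ))) - pk g (3 * N) (e * (a + F.eval (n : ℤ))))| ≤ c a := by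
      calc _ ≤ ∑ n ∈ Icc 1 x, |pw g (e * (a + F.eval (n : ℤ))) - pk g (3 * N) (e * (a + F.eval (n : ℤ)))| := abs_sum_le_sum_abs _ _
        _ ≤ ∑ n ∈ Icc 1 x, (if 1 ≤ e * (a + F.eval (n : ℤ)) ∧ e * (a + F.eval (n : ℤ)) ≤ (Nat.sqrt (3 * N) : ℕ) then (1 : ℝ) else 0) := by
            apply sum_le_sum
            intro n hn
            have h1 := hv n hn
            exact pw_sub_pk g hg (3 * N) _ (by push_cast; omega)
        _ = c a := by
            simp only [hc]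
            rw [← sum_filter, sum_const, nsmul_eq_mul, mul_one]
    have hfin : ∑ n ∈ Icc 1 x, pw g (e * (a + F.eval (n : ℤ))) = D a +
        ∑ n ∈ Icc 1 x, (1 / (J : ℝ)) * ∑ j ∈ Icc 1 J, pk g (3 * N) (e * (a + F.eval (n : ℤ)) + (j * W₀ : ℕ)) +
        ∑ n ∈ Icc 1 x, (pw g (e * (a + F.eval (n : ℤ))) - pk g (3 * N) (e * (a + F.eval (n : ℤ)))) := by
      rw [hDa, ← sum_add_distrib, ← sum_add_distrib]
      apply sum_congr rfl
      intro n _
      ring
    rw [hfin] at hbig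
    have h4 := abs_add_three (D a) (∑ n ∈ Icc 1 x, (1 / (J : ℝ)) * ∑ j ∈ Icc 1 J, pk g (3 * N) (e * (a + F.eval (n : ℤ)) + (j * W₀ : ℕ)))
      (∑ n ∈ Icc 1 x, (pw g (e * (a + F.eval (n : ℤ))) - pk g (3 * N) (e * (a + F.eval (n : ℤ)))))
    have h5 : ε * (x / Real.log N) = 4 * lam := by rw [hlam]; ring
    linarith
  calc _ ≤ ((#((Icc (-(N : ℤ)) N).filter (fun a => lam ^ 2 < D a ^ 2) ∪ (Icc (-(N : ℤ)) N).filter (fun a => lam < c a)) : ℕ) : ℝ) := by
        exact_mod_cast card_le_card hsub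
    _ ≤ (#((Icc (-(N : ℤ)) N).filter (fun a => lam ^ 2 < D a ^ 2)) : ℝ) + #((Icc (-(N : ℤ)) N).filter (fun a => lam < c a)) := by
        exact_mod_cast card_union_le _ _
    _ ≤ ε * N := by nlinarith

end Pool.Agent.W5h22.PV
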