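import Pool.Agent.R460.SC.Fc

set_option autoImplicit false

/-!
The formula of Hardy and Littlewood for the primes `|n² + a|` with the constant `h_a`, for almost all `a`
(the case `q = 1` of `Results/MP_391708_nt/FullConstantInClasses`, with the proof given there).
-/

namespace Pool.Agent.W5h22.PV

open Finset Filter Topology

/-- The product which defines `h_a`, over the odd primes `w ≤ z`. -/
noncomputable def product (a : ℤ) (z : ℕ) : ℝ :=
  ∏ w ∈ (Icc 3 z).filter Nat.Prime, (1 - (jacobiSym (-a) w : ℝ) / ((w : ℝ) - 1))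

/-- `H = h_a` -/
def IsConstant (a : ℤ) (H : ℝ) : Prop := Tendsto (product a) atTop (𝓝 H)

/-- The sum of `log |n² + a|` over the `n`, `1 ≤ n ≤ y`, for which `|n² + a|` is prime. -/
noncomputable def theta (a : ℤ) (y : ℕ) : ℝ :=
  ∑ n ∈ Icc 1 y, if ((n : ℤ) ^ 2 + a).natAbs.Prime then Real.log (((n : ℤ) ^ 2 + a).natAbs : ℝ) else 0

open Classical in
theorem fc0 (A C : ℕ) :
    ∃ X₀ : ℕ, ∀ X : ℕ, X₀ ≤ X →
      (#((Icc (-(X : ℤ)) X).filter (fun a : ℤ => ¬ ∃ H : ℝ, IsConstant a H ∧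
        ∀ y : ℕ, y ^ 2 ≤ X → |theta a y - H * y| ≤ Real.sqrt X / Real.log X ^ C)) : ℝ) ≤ X / Real.log X ^ A := by
  obtain ⟨X₀, h0⟩ := Pool.Agent.R460.SC.fin_w (a := 1) (b := 0) one_ne_zero (1 / 4) (by norm_num) A C 2
  obtain ⟨X₁, h1⟩ := Filter.eventually_atTop.1 (Pool.Agent.Y614.GJ.Core.ev_log 1 (s := 1) (by norm_num) 4)
  refine ⟨X₀ + X₁ + 1, fun X hX => ?_⟩
  have hL4 := (h1 X (by omega)).1
  have hL1 : 1 ≤ Real.log X := by linarith
  have hX1 : (1 : ℝ) ≤ X := by exact_mod_cast (by omega : 1 ≤ X)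
  have h2 := h0 X (by omega) 1 le_rfl
    (by
      rw [Nat.cast_one]
      exact Real.one_le_rpow hX1 (by norm_num))
    (by
      rw [Nat.divisors_one, card_singleton, Nat.cast_one]
      exact one_le_pow₀ hL1) 0 (by
      rw [Nat.cast_one, Int.gcd_one_right, Nat.cast_one]
      exact one_le_pow₀ hL1)
  refine le_trans ?_ (h2.trans (le_of_eq (by rw [Nat.cast_one, one_mul])))
  have hf : ∀ (a : ℤ) (n : ℕ), Pool.Agent.R460.SB.fv (-1) 0 a n = (n : ℤ) ^ 2 + a := by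
    intro a n
    unfold Pool.Agent.R460.SB.fv
    ring
  have hg : ∀ a : ℤ, Pool.Agent.R460.SC.GoodW 1 0 C X a → ∃ H : ℝ, IsConstant a H ∧
        ∀ y : ℕ, y ^ 2 ≤ X → |theta a y - H * y| ≤ Real.sqrt X / Real.log X ^ C := by
    intro a
    unfold Pool.Agent.R460.SC.GoodW IsConstant
    have e1 : ∀ y : ℕ, ∑ m ∈ Icc 1 y, Pool.Agent.R460.SQ.thp (Pool.Agent.R460.SB.fv (-1) 0 a m).natAbs = theta a y := by
      intro y
      unfold theta Pool.Agent.R460.SQ.thp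
      exact sum_congr rfl fun m _ => by rw [hf]
    have e2 : (fun z : ℕ => Pool.Agent.R460.SB.Sz (-1) 0 a z) = product a := by
      funext z
      exact Pool.Agent.R460.SB.Sz_leg a z
    simp only [neg_zero, e1, e2, hf]
    rintro ⟨_, k2⟩
    exact k2
  have hsub : (Icc (-(X : ℤ)) X).filter (fun a : ℤ => ¬ ∃ H : ℝ, IsConstant a H ∧
        ∀ y : ℕ, y ^ 2 ≤ X → |theta a y - H * y| ≤ Real.sqrt X / Real.log X ^ C) ⊆
      (Icc (-(X : ℤ)) X).filter (fun a : ℤ => a ≡ 0 [ZMOD ((1 : ℕ) : ℤ)] ∧ ¬ Pool.Agent.R460.SC.GoodW 1 0 C X a) := by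
    intro a ha
    rw [mem_filter] at ha ⊢
    refine ⟨ha.1, ?_, fun h => ha.2 (hg a h)⟩
    rw [Nat.cast_one]
    exact Int.modEq_one
  exact_mod_cast card_le_card hsub

end Pool.Agent.W5h22.PV
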