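import Mathlib
import Pool.Agent.W5h22.PV.D
import Pool.Agent.W5h22.PV.FC

set_option autoImplicit false

/-! The primes `|n² + a|` in a set of primes which is equidistributed in residue classes. -/

namespace Pool.Agent.W5h22.PV
open Finset Polynomial Filter Topology
open Pool.Agent.Helper602.MK
open Pool.Agent.H373R2.NB

/-- the sum of `f(|n² + a|)` over the `n ≤ y` for which `|n² + a|` is a prime -/
noncomputable def R (f : ℕ → ℝ) (a : ℤ) (y : ℕ) : ℝ :=
  ∑ n ∈ Icc 1 y, if ((n : ℤ) ^ 2 + a).natAbs.Prime then f ((n : ℤ) ^ 2 + a).natAbs else 0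

lemma split_sign (f : ℕ → ℝ) (v : ℤ) : (if v.natAbs.Prime then f v.natAbs else 0) = pw f v + pw f (-v) := by
  unfold pw
  rcases lt_trichotomy v 0 with h | h | h
  · have e1 : v.toNat = 0 := by omega
    have e2 : (-v).toNat = v.natAbs := by omega
    rw [e1, e2, if_neg Nat.not_prime_zero, zero_add]
  · subst h
    simp [Nat.not_prime_zero]
  · have e1 : v.toNat = v.natAbs := by omega
    have e2 : (-v).toNat = 0 := by omega
    rw [e1, e2, if_neg Nat.not_prime_zero, add_zero]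

lemma R_split (f : ℕ → ℝ) (a : ℤ) (y : ℕ) :
    R f a y = ∑ n ∈ Icc 1 y, pw f (1 * (a + (X ^ 2 : ℤ[X]).eval (n : ℤ))) + ∑ n ∈ Icc 1 y, pw f (-1 * (a + (X ^ 2 : ℤ[X]).eval (n : ℤ))) := by
  unfold R
  rw [← sum_add_distrib]
  apply sum_congr rfl
  intro n _
  rw [split_sign]
  simp only [eval_pow, eval_X]
  congr 2 <;> ring

/-- weights of mean value zero, one length -/
theorem fixedR (K : ℕ) (g : ℕ → ℝ) (hg : ∀ p, |g p| ≤ 1) (hz : MZ g) (ε : ℝ) (hε : 0 < ε) :
    ∀ᶠ N : ℕ in atTop, ∀ x : ℕ, 1 ≤ x → N ≤ K * x ^ 2 → x ^ 2 ≤ N →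
        (#((Icc (-(N : ℤ)) N).filter (fun a => ε * (Real.sqrt N / Real.log N) < |R g a x|)) : ℝ) ≤ ε * N := by
  have hd : (X ^ 2 : ℤ[X]).natDegree = 2 := natDegree_X_pow 2
  have hl : 0 < (X ^ 2 : ℤ[X]).leadingCoeff := by rw [leadingCoeff_X_pow]; norm_num
  filter_upwards [fixed (X ^ 2 : ℤ[X]) (by rw [hd]; norm_num) hl (K + 1) (by omega) g hg hz (ε / 2) (by positivity),
    eventually_ge_atTop 3] with N hN hN3
  intro x hx hNx hxN
  have hN3r : (3 : ℝ) ≤ N := by exact_mod_cast hN3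
  have hlN : 0 < Real.log N := Real.log_pos (by linarith)
  have hxs : (x : ℝ) ≤ Real.sqrt N := by
    apply Real.le_sqrt_of_sq_le
    exact_mod_cast hxN
  have hpre : ∀ n ∈ Icc 1 x, |(X ^ 2 : ℤ[X]).eval (n : ℤ)| ≤ N := by
    intro n hn
    rw [mem_Icc] at hn
    simp only [eval_pow, eval_X]
    rw [abs_of_nonneg (by positivity)]
    have : n ^ 2 ≤ x ^ 2 := Nat.pow_le_pow_left hn.2 2
    exact_mod_cast this.trans hxN
  have h1 := hN x hx (by rw [hd]; nlinarith) hpre 1 (Or.inl rfl)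
  have h2 := hN x hx (by rw [hd]; nlinarith) hpre (-1) (Or.inr rfl)
  have hsub : (Icc (-(N : ℤ)) N).filter (fun a => ε * (Real.sqrt N / Real.log N) < |R g a x|) ⊆
      (Icc (-(N : ℤ)) N).filter (fun a => ε / 2 * (x / Real.log N) < |∑ n ∈ Icc 1 x, pw g (1 * (a + (X ^ 2 : ℤ[X]).eval (n : ℤ)))|) ∪
      (Icc (-(N : ℤ)) N).filter (fun a => ε / 2 * (x / Real.log N) < |∑ n ∈ Icc 1 x, pw g (-1 * (a + (X ^ 2 : ℤ[X]).eval (n : ℤ)))|) := by
    intro a ha
    rw [mem_filter] at ha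
    rw [mem_union, mem_filter, mem_filter]
    by_contra hcon
    push Not at hcon
    have k1 := hcon.1 ha.1
    have k2 := hcon.2 ha.1
    have k3 := ha.2
    rw [R_split] at k3
    have k4 := abs_add_le (∑ n ∈ Icc 1 x, pw g (1 * (a + (X ^ 2 : ℤ[X]).eval (n : ℤ)))) (∑ n ∈ Icc 1 x, pw g (-1 * (a + (X ^ 2 : ℤ[X]).eval (n : ℤ))))
    have k5 : ε / 2 * (x / Real.log N) ≤ ε / 2 * (Real.sqrt N / Real.log N) :=
      mul_le_mul_of_nonneg_left (div_le_div_of_nonneg_right hxs hlN.le) (by positivity)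
    linarith
  calc _ ≤ ((#((Icc (-(N : ℤ)) N).filter (fun a => ε / 2 * (x / Real.log N) < |∑ n ∈ Icc 1 x, pw g (1 * (a + (X ^ 2 : ℤ[X]).eval (n : ℤ)))|) ∪
      (Icc (-(N : ℤ)) N).filter (fun a => ε / 2 * (x / Real.log N) < |∑ n ∈ Icc 1 x, pw g (-1 * (a + (X ^ 2 : ℤ[X]).eval (n : ℤ)))|)) : ℕ) : ℝ) := by
        exact_mod_cast card_le_card hsub
    _ ≤ (#((Icc (-(N : ℤ)) N).filter (fun a => ε / 2 * (x / Real.log N) < |∑ n ∈ Icc 1 x, pw g (1 * (a + (X ^ 2 : ℤ[X]).eval (n : ℤ)))|)) : ℝ) +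
        #((Icc (-(N : ℤ)) N).filter (fun a => ε / 2 * (x / Real.log N) < |∑ n ∈ Icc 1 x, pw g (-1 * (a + (X ^ 2 : ℤ[X]).eval (n : ℤ)))|)) := by
        exact_mod_cast card_union_le _ _
    _ ≤ ε * N := by linarith

/-- primes up to `t`: an upper bound of the right order -/
lemma primes_le : ∃ K : ℝ, 1 ≤ K ∧ ∀ t : ℕ, 2 ≤ t → (#((Icc 1 t).filter Nat.Prime) : ℝ) ≤ K * (t / Real.log t) := by
  have h1 := evt_sqrt_log 1 1 one_pos
  obtain ⟨t₀, h1⟩ := eventually_atTop.1 h1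
  refine ⟨t₀ + 10, by linarith [(Nat.cast_nonneg t₀ : (0 : ℝ) ≤ t₀)], fun t ht => ?_⟩
  have ht2 : (2 : ℝ) ≤ t := by exact_mod_cast ht
  have hlt : 0 < Real.log t := Real.log_pos (by linarith)
  have htl : Real.log t ≤ t := (Real.log_le_sub_one_of_pos (by linarith)).trans (by linarith)
  have h1t : 1 ≤ t / Real.log t := by rw [le_div_iff₀ hlt]; linarith
  have ht₀ : (0 : ℝ) ≤ t₀ := Nat.cast_nonneg _
  rcases le_or_gt t₀ t with h | h
  · have h2 := h1 t h
    have h3 := N_J6.j6_card t ht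
    have hlog4 : Real.log 4 ≤ 2 := by
      have h1 : Real.log 4 = 2 * Real.log 2 := by
        rw [show (4 : ℝ) = 2 ^ 2 by norm_num, Real.log_pow]; push_cast; ring
      have := Real.log_two_lt_d9
      linarith
    have h4 : (Icc 1 t).filter Nat.Prime ⊆ PP t ∪ Icc 1 (Nat.sqrt t) := by
      intro p hp
      rw [mem_filter, mem_Icc] at hp
      rw [mem_union, mem_PP, mem_Icc]
      by_cases h5 : t < p ^ 2
      · exact Or.inl ⟨hp.1.2, hp.2, h5⟩
      · exact Or.inr ⟨hp.1.1, Nat.le_sqrt'.2 (by omega)⟩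
    have h5 : (#((Icc 1 t).filter Nat.Prime) : ℝ) ≤ #(PP t) + Nat.sqrt t := by
      have h6 := (card_le_card h4).trans (card_union_le _ _)
      rw [Nat.card_Icc, Nat.add_sub_cancel] at h6
      exact_mod_cast h6
    have h7 : (Nat.sqrt t : ℝ) ≤ t / Real.log t := by
      rw [le_div_iff₀ hlt]
      have h8 : (Nat.sqrt t : ℝ) ≤ Real.sqrt t := Real.nat_sqrt_le_real_sqrt
      have h9 : Real.sqrt t ≤ Real.sqrt (3 * t) := Real.sqrt_le_sqrt (by linarith)
      calc (Nat.sqrt t : ℝ) * Real.log t ≤ 1 * (Real.sqrt (3 * t) + 1) * Real.log t := by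
            apply mul_le_mul_of_nonneg_right _ hlt.le
            linarith
        _ ≤ 1 * t := h2
        _ = t := one_mul _
    have h8 : 2 * Real.log 4 * (t / Real.log t) ≤ 4 * (t / Real.log t) := by
      apply mul_le_mul_of_nonneg_right _ (by linarith)
      linarith
    have h9 : 5 * (t / Real.log t) ≤ (t₀ + 10) * (t / Real.log t) := by
      apply mul_le_mul_of_nonneg_right _ (by linarith)
      linarith
    linarith
  · have h2 : #((Icc 1 t).filter Nat.Prime) ≤ t := by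
      refine (card_filter_le _ _).trans ?_
      rw [Nat.card_Icc]; omega
    calc (#((Icc 1 t).filter Nat.Prime) : ℝ) ≤ t₀ := by exact_mod_cast h2.trans h.le
      _ ≤ (t₀ + 10) * 1 := by linarith
      _ ≤ _ := mul_le_mul_of_nonneg_left h1t (by linarith)

/-- the number of the primes `|n² + a|` is bounded on average -/
lemma R_mean : ∃ K : ℝ, 1 ≤ K ∧ ∀ N : ℕ, 3 ≤ N → ∀ x : ℕ, x ^ 2 ≤ N →
    ∑ a ∈ Icc (-(N : ℤ)) N, R (fun _ => 1) a x ≤ K * N * (Real.sqrt N / Real.log N) := by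
  obtain ⟨K, hK, hpr⟩ := primes_le
  refine ⟨4 * K, by linarith, fun N hN x hx => ?_⟩
  have hN3 : (3 : ℝ) ≤ N := by exact_mod_cast hN
  have hN0 : (0 : ℝ) < N := by linarith
  have hlN : 0 < Real.log N := Real.log_pos (by linarith)
  have hxs : (x : ℝ) ≤ Real.sqrt N := by
    apply Real.le_sqrt_of_sq_le
    exact_mod_cast hx
  unfold R
  rw [sum_comm]
  have h1 : ∀ n ∈ Icc 1 x, ∑ a ∈ Icc (-(N : ℤ)) N, (if ((n : ℤ) ^ 2 + a).natAbs.Prime then (1 : ℝ) else 0) ≤ 4 * K * (N / Real.log N) := by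
    intro n hn
    rw [mem_Icc] at hn
    have hn2 : n ^ 2 ≤ N := (Nat.pow_le_pow_left hn.2 2).trans hx
    rw [← sum_filter, sum_const, nsmul_eq_mul, mul_one]
    have h2 : #((Icc (-(N : ℤ)) N).filter (fun a => ((n : ℤ) ^ 2 + a).natAbs.Prime)) ≤
        #(((Icc 1 (2 * N)).filter Nat.Prime) ×ˢ ({1, -1} : Finset ℤ)) := by
      apply card_le_card_of_injOn (fun a => (((n : ℤ) ^ 2 + a).natAbs, ((n : ℤ) ^ 2 + a).sign))
      · intro a ha
        rw [mem_coe, mem_filter, mem_Icc] at ha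
        rw [mem_coe, mem_product, mem_filter, mem_Icc]
        have hpos := ha.2.pos
        have hn2' : ((n : ℤ) ^ 2) ≤ N := by exact_mod_cast hn2
        have hn0' : (0 : ℤ) ≤ (n : ℤ) ^ 2 := by positivity
        refine ⟨⟨⟨ha.2.one_lt.le, by simp only; omega⟩, ha.2⟩, ?_⟩
        simp only [mem_insert, mem_singleton]
        rcases lt_trichotomy ((n : ℤ) ^ 2 + a) 0 with h | h | h
        · right; exact Int.sign_eq_neg_one_of_neg h
        · rw [h] at hpos; simp at hpos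
        · left; exact Int.sign_eq_one_of_pos h
      · intro a _ b _ hab
        simp only [Prod.mk.injEq] at hab
        have h3 : ((n : ℤ) ^ 2 + a) = (n : ℤ) ^ 2 + b := by
          rw [← Int.sign_mul_natAbs ((n : ℤ) ^ 2 + a), ← Int.sign_mul_natAbs ((n : ℤ) ^ 2 + b), hab.1, hab.2]
        linarith
    rw [card_product] at h2
    have h3 : #({1, -1} : Finset ℤ) = 2 := by decide
    rw [h3] at h2
    have h4 := hpr (2 * N) (by omega)
    push_cast at h4
    have h5 : Real.log N ≤ Real.log (2 * N) := Real.log_le_log hN0 (by linarith)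
    have h6 : (2 * N : ℝ) / Real.log (2 * N) ≤ 2 * (N / Real.log N) := by
      rw [← mul_div_assoc]
      exact div_le_div_of_nonneg_left (by linarith) hlN h5
    calc (#((Icc (-(N : ℤ)) N).filter (fun a => ((n : ℤ) ^ 2 + a).natAbs.Prime)) : ℝ) ≤
        (#((Icc 1 (2 * N)).filter Nat.Prime) : ℝ) * 2 := by exact_mod_cast h2
      _ ≤ (K * (2 * (N / Real.log N))) * 2 := by
          apply mul_le_mul_of_nonneg_right _ (by norm_num)
          exact h4.trans (mul_le_mul_of_nonneg_left h6 (by linarith))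
      _ = _ := by ring
  calc _ ≤ ∑ _n ∈ Icc 1 x, 4 * K * (N / Real.log N) := sum_le_sum h1
    _ = x * (4 * K * (N / Real.log N)) := by
        rw [sum_const, Nat.card_Icc, Nat.add_sub_cancel, nsmul_eq_mul]
    _ ≤ Real.sqrt N * (4 * K * (N / Real.log N)) := mul_le_mul_of_nonneg_right hxs (by positivity)
    _ = _ := by ring

end Pool.Agent.W5h22.PV
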