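import Mathlib
import Pool.Agent.W5h22.PV.E

set_option autoImplicit false

/-! One integer `a`: from the total count, the logarithmic sum and the grid values to all lengths. -/

namespace Pool.Agent.W5h22.PV
open Finset Filter Topology

lemma R_mono_diff (g : ℕ → ℝ) (hg : ∀ p, |g p| ≤ 1) (a : ℤ) (y₁ y₂ : ℕ) (h : y₁ ≤ y₂) :
    |R g a y₂ - R g a y₁| ≤ R (fun _ => 1) a y₂ - R (fun _ => 1) a y₁ := by
  have key : ∀ f : ℕ → ℝ, R f a y₂ - R f a y₁ = ∑ n ∈ Ioc y₁ y₂, if ((n : ℤ) ^ 2 + a).natAbs.Prime then f ((n : ℤ) ^ 2 + a).natAbs else 0 := by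
    intro f
    unfold R
    have h1 : Icc 1 y₂ = Icc 1 y₁ ∪ Ioc y₁ y₂ := by
      ext n; simp only [mem_union, mem_Icc, mem_Ioc]; omega
    have h2 : Disjoint (Icc 1 y₁) (Ioc y₁ y₂) := by
      rw [disjoint_left]; intro n; simp only [mem_Icc, mem_Ioc]; omega
    rw [h1, sum_union h2]; ring
  rw [key, key]
  refine (abs_sum_le_sum_abs _ _).trans (sum_le_sum fun n _ => ?_)
  split_ifs
  · exact hg _
  · rw [abs_zero]

lemma R_nonneg (a : ℤ) (y : ℕ) : 0 ≤ R (fun _ => 1) a y := by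
  unfold R
  apply sum_nonneg
  intro n _
  split_ifs <;> norm_num

lemma R_mono (a : ℤ) (y₁ y₂ : ℕ) (h : y₁ ≤ y₂) : R (fun _ => 1) a y₁ ≤ R (fun _ => 1) a y₂ := by
  have := R_mono_diff (fun _ => 1) (fun _ => by simp) a y₁ y₂ h
  have h2 := abs_nonneg (R (fun _ => 1) a y₂ - R (fun _ => 1) a y₁)
  linarith

/-- few `n` have a small value `|n² + a|` -/
lemma small_cnt (a : ℤ) (y Y : ℕ) :
    #((Icc 1 y).filter (fun n : ℕ => ((n : ℤ) ^ 2 + a).natAbs ≤ Y)) ≤ Nat.sqrt (2 * Y) + 1 := by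
  rcases ((Icc 1 y).filter (fun n : ℕ => ((n : ℤ) ^ 2 + a).natAbs ≤ Y)).eq_empty_or_nonempty with h | h
  · rw [h, card_empty]; omega
  · set n₀ := ((Icc 1 y).filter (fun n : ℕ => ((n : ℤ) ^ 2 + a).natAbs ≤ Y)).min' h with hn₀
    have h0 := min'_mem _ h
    rw [← hn₀, mem_filter] at h0
    have hsub : (Icc 1 y).filter (fun n : ℕ => ((n : ℤ) ^ 2 + a).natAbs ≤ Y) ⊆ Icc n₀ (n₀ + Nat.sqrt (2 * Y)) := by
      intro n hn
      have hmin := min'_le _ n hn
      rw [← hn₀] at hmin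
      rw [mem_filter] at hn
      rw [mem_Icc]
      refine ⟨hmin, ?_⟩
      have h1 : (n - n₀) ^ 2 ≤ 2 * Y := by
        obtain ⟨t, rfl⟩ := Nat.exists_eq_add_of_le hmin
        rw [Nat.add_sub_cancel_left]
        have h2 := hn.2
        have h3 := h0.2
        push_cast at h2
        have h4 : ((n₀ : ℤ) + t) ^ 2 - (n₀ : ℤ) ^ 2 ≤ 2 * Y := by
          generalize ((n₀ : ℤ) + t) ^ 2 = u at h2 ⊢
          generalize ((n₀ : ℤ)) ^ 2 = w at h3 ⊢
          omega
        have h5 : (t : ℤ) ^ 2 ≤ 2 * Y := by nlinarith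
        exact_mod_cast h5
      have := Nat.le_sqrt'.2 h1
      omega
    refine (card_le_card hsub).trans ?_
    rw [Nat.card_Icc]; omega

/-- the count and the logarithmic sum -/
lemma R_theta (N Y : ℕ) (hN : 3 ≤ N) (κ H₁ : ℝ) (hκ : 0 < κ) (hκ1 : κ ≤ 1) (hκN : Real.log 2 ≤ κ * Real.log N)
    (hY : ∀ v : ℕ, Y < v → (1 - κ) * Real.log N ≤ Real.log v) (a : ℤ) (haN : |a| ≤ N) (y : ℕ) (hy : y ^ 2 ≤ N)
    (hR : R (fun _ => 1) a y ≤ H₁) :
    |R (fun _ => 1) a y - theta a y / Real.log N| ≤ (Nat.sqrt (2 * Y) + 1 : ℕ) + κ * H₁ := by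
  have hN3 : (3 : ℝ) ≤ N := by exact_mod_cast hN
  have hN0 : (0 : ℝ) < N := by linarith
  have hlN : 0 < Real.log N := Real.log_pos (by linarith)
  have h1 : |R (fun _ => 1) a y - theta a y / Real.log N| ≤
      ∑ n ∈ Icc 1 y, ((if ((n : ℤ) ^ 2 + a).natAbs ≤ Y then (1 : ℝ) else 0) + κ * (if ((n : ℤ) ^ 2 + a).natAbs.Prime then 1 else 0)) := by
    unfold R theta
    rw [sum_div, ← sum_sub_distrib]
    refine (abs_sum_le_sum_abs _ _).trans (sum_le_sum fun n hn => ?_)
    rw [mem_Icc] at hn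
    have hn2 : n ^ 2 ≤ N := (Nat.pow_le_pow_left hn.2 2).trans hy
    have hn2' : ((n : ℤ) ^ 2) ≤ N := by exact_mod_cast hn2
    have hn0' : (0 : ℤ) ≤ (n : ℤ) ^ 2 := by positivity
    rw [abs_le] at haN
    have hv : ((n : ℤ) ^ 2 + a).natAbs ≤ 2 * N := by omega
    by_cases hp : ((n : ℤ) ^ 2 + a).natAbs.Prime
    · simp only [if_pos hp, mul_one]
      set v := ((n : ℤ) ^ 2 + a).natAbs with hvd
      have hv1 : (1 : ℝ) ≤ v := by exact_mod_cast hp.one_lt.le
      have hlv0 : 0 ≤ Real.log v := Real.log_nonneg hv1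
      have hlv2 : Real.log v ≤ Real.log 2 + Real.log N := by
        rw [← Real.log_mul (by norm_num) hN0.ne']
        apply Real.log_le_log (by linarith)
        exact_mod_cast hv
      have hup : Real.log v / Real.log N ≤ 1 + κ := by
        rw [div_le_iff₀ hlN]; linarith
      have hlo0 : 0 ≤ Real.log v / Real.log N := by positivity
      by_cases hvY : v ≤ Y
      · rw [if_pos hvY, abs_le]; constructor <;> linarith
      · rw [if_neg hvY, zero_add]
        have hlo : 1 - κ ≤ Real.log v / Real.log N := by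
          rw [le_div_iff₀ hlN]; exact hY v (by omega)
        rw [abs_le]; constructor <;> linarith
    · simp only [if_neg hp, zero_div, sub_zero, abs_zero, mul_zero, add_zero]
      split_ifs <;> norm_num
  refine h1.trans ?_
  rw [sum_add_distrib]
  apply add_le_add
  · rw [← sum_filter, sum_const, nsmul_eq_mul, mul_one]
    exact_mod_cast small_cnt a y Y
  · rw [← mul_sum]
    exact mul_le_mul_of_nonneg_left hR hκ.le

/-- all lengths, for one `a` -/
lemma one_a (f : ℕ → ℝ) (δ c : ℝ) (hc : c = 1 + |δ|) (g : ℕ → ℝ) (hg : ∀ p, |g p| ≤ 1)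
    (hfg : ∀ p, f p = δ + c * g p) (N Y T m : ℕ) (hN : 3 ≤ N) (hT : T = Nat.sqrt N) (hm : 1 ≤ m)
    (κ H₁ S ε₁ ε₂ ε₃ : ℝ) (hS : S = Real.sqrt N / Real.log N) (hκ : 0 < κ) (hκ1 : κ ≤ 1) (hκN : Real.log 2 ≤ κ * Real.log N)
    (hY : ∀ v : ℕ, Y < v → (1 - κ) * Real.log N ≤ Real.log v) (hH₁ : 1 ≤ H₁)
    (hY2 : ((Nat.sqrt (2 * Y) + 1 : ℕ) : ℝ) ≤ ε₂ * S) (hlog : Real.sqrt N / Real.log N ^ 2 / Real.log N ≤ ε₃ * S)
    (hlog2 : Real.sqrt N / Real.log N ^ 2 ≤ Real.sqrt N) (hT1 : 1 ≤ T)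
    (a : ℤ) (haN : |a| ≤ N) (H : ℝ) (h1 : ∀ y : ℕ, y ^ 2 ≤ N → |theta a y - H * y| ≤ Real.sqrt N / Real.log N ^ 2)
    (h2 : R (fun _ => 1) a T ≤ H₁ * S) (h3 : ∀ j ∈ Icc 1 m, |R g a (j * T / m)| ≤ ε₁ * S) :
    ∀ y : ℕ, y ^ 2 ≤ N → |R f a y - δ * H * y / Real.log N| ≤
      (3 * c * (ε₂ + κ * H₁ + ε₃) + c * ε₁ + c * (2 * (2 * H₁ + 1)) / m) * S + c * (2 * (2 * H₁ + 1)) / Real.log N := by
  intro y hy
  have hN3 : (3 : ℝ) ≤ N := by exact_mod_cast hN
  have hN0 : (0 : ℝ) < N := by linarith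
  have hlN : 0 < Real.log N := Real.log_pos (by linarith)
  have hsN : 0 < Real.sqrt N := Real.sqrt_pos.2 hN0
  have hS0 : 0 < S := by rw [hS]; positivity
  have hm0 : (0 : ℝ) < m := by exact_mod_cast hm
  have hc1 : 1 ≤ c := by rw [hc]; linarith [abs_nonneg δ]
  have hε₁ : 0 ≤ ε₁ := by
    have := (abs_nonneg _).trans (h3 1 (by rw [mem_Icc]; omega))
    by_contra hcon
    push Not at hcon
    nlinarith
  have hTs : (T : ℝ) ≤ Real.sqrt N := by rw [hT]; exact Real.nat_sqrt_le_real_sqrt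
  have hTs2 : Real.sqrt N ≤ 2 * T := by
    have k1 : Real.sqrt N ≤ Nat.sqrt N + 1 := Real.real_sqrt_le_nat_sqrt_succ
    rw [← hT] at k1
    have : (1 : ℝ) ≤ T := by exact_mod_cast hT1
    linarith
  have hTN : T ^ 2 ≤ N := by rw [hT]; exact Nat.sqrt_le' N
  have hyT : y ≤ T := by rw [hT]; exact Nat.le_sqrt'.2 hy
  have hRle : ∀ z : ℕ, z ≤ T → R (fun _ => 1) a z ≤ H₁ * S := fun z hz => (R_mono a z T hz).trans h2
  have hsq : ∀ z : ℕ, z ≤ T → z ^ 2 ≤ N := fun z hz => (Nat.pow_le_pow_left hz 2).trans hTN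
  -- the total count against the logarithmic sum
  have hRt : ∀ z : ℕ, z ≤ T → |R (fun _ => 1) a z - H * z / Real.log N| ≤ (ε₂ + κ * H₁ + ε₃) * S := by
    intro z hz
    have k1 := R_theta N Y hN κ (H₁ * S) hκ hκ1 hκN hY a haN z (hsq z hz) (hRle z hz)
    have k2 := h1 z (hsq z hz)
    have k3 : |theta a z / Real.log N - H * z / Real.log N| ≤ ε₃ * S := by
      rw [← sub_div, abs_div, abs_of_pos hlN]
      exact (div_le_div_of_nonneg_right k2 hlN.le).trans hlog
    have k4 : R (fun _ => 1) a z - H * z / Real.log N = (R (fun _ => 1) a z - theta a z / Real.log N) +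
        (theta a z / Real.log N - H * z / Real.log N) := by ring
    rw [k4]
    refine (abs_add_le _ _).trans ?_
    have k5 : (ε₂ + κ * H₁ + ε₃) * S = ε₂ * S + κ * (H₁ * S) + ε₃ * S := by ring
    rw [k5]
    linarith
  -- the bound for `H`
  have hHb : |H| ≤ 2 * (2 * H₁ + 1) := by
    have k1 := h1 T hTN
    have k2 : theta a T ≤ 2 * Real.log N * (H₁ * S) := by
      refine le_trans ?_ (mul_le_mul_of_nonneg_left h2 (by positivity))
      unfold theta R
      rw [mul_sum]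
      apply sum_le_sum
      intro n hn
      rw [mem_Icc] at hn
      by_cases hp : ((n : ℤ) ^ 2 + a).natAbs.Prime
      · rw [if_pos hp, if_pos hp, mul_one]
        have hn2 : n ^ 2 ≤ N := (Nat.pow_le_pow_left hn.2 2).trans hTN
        have hn2' : ((n : ℤ) ^ 2) ≤ N := by exact_mod_cast hn2
        have hn0' : (0 : ℤ) ≤ (n : ℤ) ^ 2 := by positivity
        have haN' := abs_le.1 haN
        have hv : ((n : ℤ) ^ 2 + a).natAbs ≤ 2 * N := by omega
        have hvpos : (0 : ℝ) < (((n : ℤ) ^ 2 + a).natAbs : ℝ) := by exact_mod_cast hp.pos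
        have k3 : Real.log (((n : ℤ) ^ 2 + a).natAbs : ℝ) ≤ Real.log 2 + Real.log N := by
          rw [← Real.log_mul (by norm_num) hN0.ne']
          apply Real.log_le_log hvpos
          exact_mod_cast hv
        have k4 : Real.log 2 ≤ Real.log N := Real.log_le_log (by norm_num) (by linarith)
        linarith
      · rw [if_neg hp, if_neg hp, mul_zero]
    have k3 : 2 * Real.log N * (H₁ * S) = 2 * H₁ * Real.sqrt N := by
      rw [hS]; field_simp
    rw [k3] at k2
    have k4 : 0 ≤ theta a T := by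
      unfold theta
      apply sum_nonneg
      intro n _
      split_ifs with hp
      · exact Real.log_nonneg (by exact_mod_cast hp.one_lt.le)
      · exact le_rfl
    rw [abs_le] at k1
    have hT0 : (0 : ℝ) < T := by exact_mod_cast hT1
    have k5 : |H * T| ≤ (2 * H₁ + 1) * Real.sqrt N := by
      rw [abs_le]
      constructor
      · nlinarith
      · linarith [k1.1]
    rw [abs_mul, abs_of_pos hT0] at k5
    have k6 : |H| * T ≤ (2 * (2 * H₁ + 1)) * T := by
      refine k5.trans ?_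
      have : (2 * H₁ + 1) * Real.sqrt N ≤ (2 * H₁ + 1) * (2 * T) := mul_le_mul_of_nonneg_left hTs2 (by linarith)
      linarith
    exact le_of_mul_le_mul_right k6 hT0
  -- the point of the grid
  set j : ℕ := y * m / T with hj
  have hj1 : j * T ≤ y * m := Nat.div_mul_le_self _ _
  have hj2 : y * m < (j + 1) * T := by
    have := Nat.lt_mul_div_succ (y * m) (show 0 < T by omega)
    rw [← hj] at this
    linarith [mul_comm T (j + 1)]
  have hjm : j ≤ m := by
    have : j * T ≤ T * m := hj1.trans (Nat.mul_le_mul_right m hyT)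
    have h5 : j * T ≤ m * T := by linarith [mul_comm T m]
    exact Nat.le_of_mul_le_mul_right h5 (by omega)
  set z : ℕ := j * T / m with hz
  have hzy : z ≤ y := by
    rw [hz]
    exact (Nat.div_le_div_right hj1).trans (Nat.mul_div_cancel y hm).le
  have hzT : z ≤ T := hzy.trans hyT
  have hyz : (y : ℝ) - z ≤ T / m + 1 := by
    have k1 : j * T < m * (z + 1) := by
      have := Nat.lt_mul_div_succ (j * T) (show 0 < m by omega)
      rw [← hz] at this
      exact this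
    have k2 : (y : ℝ) * m < (j + 1) * T := by exact_mod_cast hj2
    have k3 : (j : ℝ) * T < m * (z + 1) := by exact_mod_cast k1
    have k4 : (y : ℝ) - z - 1 ≤ T / m := by
      rw [le_div_iff₀ hm0]; linarith
    linarith
  have hgz : |R g a z| ≤ ε₁ * S := by
    rcases Nat.eq_zero_or_pos j with h0 | h0
    · have hz0 : z = 0 := by rw [hz, h0, zero_mul, Nat.zero_div]
      rw [hz0]
      unfold R
      rw [Icc_eq_empty (by norm_num), sum_empty, abs_zero]
      positivity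
    · exact h3 j (mem_Icc.2 ⟨h0, hjm⟩)
  have hgy : |R g a y| ≤ ε₁ * S + (2 * (2 * H₁ + 1)) * (T / m + 1) / Real.log N + 2 * ((ε₂ + κ * H₁ + ε₃) * S) := by
    have k1 := R_mono_diff g hg a z y hzy
    have k2 := abs_le.1 (hRt y hyT)
    have k3 := abs_le.1 (hRt z hzT)
    have k4 : H * y / Real.log N - H * z / Real.log N ≤ (2 * (2 * H₁ + 1)) * (T / m + 1) / Real.log N := by
      rw [← sub_div, ← mul_sub]
      apply div_le_div_of_nonneg_right _ hlN.le
      have h5 : (0 : ℝ) ≤ (y : ℝ) - z := by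
        have : (z : ℝ) ≤ y := by exact_mod_cast hzy
        linarith
      calc H * ((y : ℝ) - z) ≤ |H| * ((y : ℝ) - z) := mul_le_mul_of_nonneg_right (le_abs_self H) h5
        _ ≤ _ := mul_le_mul hHb hyz h5 (by linarith)
    have k5 : |R g a y| ≤ |R g a z| + |R g a y - R g a z| := by
      have : R g a y = R g a z + (R g a y - R g a z) := by ring
      calc |R g a y| = |R g a z + (R g a y - R g a z)| := by rw [← this]
        _ ≤ _ := abs_add_le _ _
    linarith [k2.1, k2.2, k3.1, k3.2]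
  have hRf : R f a y = δ * R (fun _ => 1) a y + c * R g a y := by
    unfold R
    rw [mul_sum, mul_sum, ← sum_add_distrib]
    apply sum_congr rfl
    intro n _
    split_ifs
    · rw [hfg]; ring
    · ring
  have e1 : R f a y - δ * H * y / Real.log N = δ * (R (fun _ => 1) a y - H * y / Real.log N) + c * R g a y := by
    rw [hRf]; ring
  rw [e1]
  refine (abs_add_le _ _).trans ?_
  rw [abs_mul, abs_mul, abs_of_pos (by linarith : 0 < c)]
  have hE0 : 0 ≤ (ε₂ + κ * H₁ + ε₃) * S := (abs_nonneg _).trans (hRt y hyT)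
  have k1 : |δ| * |R (fun _ => 1) a y - H * y / Real.log N| ≤ c * ((ε₂ + κ * H₁ + ε₃) * S) := by
    apply mul_le_mul _ (hRt y hyT) (abs_nonneg _) (by linarith)
    rw [hc]; linarith
  have k2 : c * |R g a y| ≤ c * (ε₁ * S + (2 * (2 * H₁ + 1)) * (T / m + 1) / Real.log N + 2 * ((ε₂ + κ * H₁ + ε₃) * S)) :=
    mul_le_mul_of_nonneg_left hgy (by linarith)
  have k3 : (2 * (2 * H₁ + 1)) * (T / m + 1) / Real.log N ≤ (2 * (2 * H₁ + 1)) / m * S + (2 * (2 * H₁ + 1)) / Real.log N := by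
    rw [hS]
    have : (2 * (2 * H₁ + 1)) * (T / m + 1) / Real.log N = (2 * (2 * H₁ + 1)) / m * (T / Real.log N) + (2 * (2 * H₁ + 1)) / Real.log N := by
      field_simp
    rw [this]
    have k4 : (T : ℝ) / Real.log N ≤ Real.sqrt N / Real.log N := div_le_div_of_nonneg_right hTs hlN.le
    have k5 : (2 * (2 * H₁ + 1)) / m * (T / Real.log N) ≤ (2 * (2 * H₁ + 1)) / m * (Real.sqrt N / Real.log N) :=
      mul_le_mul_of_nonneg_left k4 (by positivity)
    linarith
  have k4 : c * ((2 * (2 * H₁ + 1)) * (T / m + 1) / Real.log N) ≤ c * ((2 * (2 * H₁ + 1)) / m * S + (2 * (2 * H₁ + 1)) / Real.log N) :=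
    mul_le_mul_of_nonneg_left k3 (by linarith)
  have e2 : (3 * c * (ε₂ + κ * H₁ + ε₃) + c * ε₁ + c * (2 * (2 * H₁ + 1)) / m) * S + c * (2 * (2 * H₁ + 1)) / Real.log N =
      3 * (c * ((ε₂ + κ * H₁ + ε₃) * S)) + c * (ε₁ * S) + c * ((2 * (2 * H₁ + 1)) / m * S + (2 * (2 * H₁ + 1)) / Real.log N) := by
    ring
  rw [e2]
  have e3 : c * (ε₁ * S + (2 * (2 * H₁ + 1)) * (T / m + 1) / Real.log N + 2 * ((ε₂ + κ * H₁ + ε₃) * S)) =
      c * (ε₁ * S) + c * ((2 * (2 * H₁ + 1)) * (T / m + 1) / Real.log N) + 2 * (c * ((ε₂ + κ * H₁ + ε₃) * S)) := by ring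
  rw [e3] at k2
  linarith

end Pool.Agent.W5h22.PV
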