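import Mathlib
import Pool.Agent.W5h22.PV.E2

set_option autoImplicit false

/-! The theorem for equidistributed weights. -/

namespace Pool.Agent.W5h22.PV
open Finset Filter Topology

/-- The mean value of `f` over the primes `p ≤ t`, `p ≡ b (mod q)`. -/
noncomputable def mean (f : ℕ → ℝ) (q b t : ℕ) : ℝ :=
  (∑ p ∈ (Icc 1 t).filter (fun p => p.Prime ∧ p ≡ b [MOD q]), f p) /
    #((Icc 1 t).filter (fun p => p.Prime ∧ p ≡ b [MOD q]))

lemma mz_of_mean (f : ℕ → ℝ) (δ c : ℝ) (hc : 0 < c)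
    (h : ∀ q b : ℕ, 1 ≤ q → Nat.Coprime b q → Tendsto (mean f q b) atTop (𝓝 δ)) :
    MZ (fun p => (f p - δ) / c) := by
  obtain ⟨K, hK, hpr⟩ := primes_le
  intro W b hW hb
  have h1 := h W b hW hb
  have h2 : Tendsto (fun t : ℕ => K / c * |mean f W b t - δ|) atTop (𝓝 0) := by
    have h3 : Tendsto (fun t : ℕ => |mean f W b t - δ|) atTop (𝓝 0) := by
      have := (h1.sub_const δ).abs
      rwa [sub_self, abs_zero] at this
    have := h3.const_mul (K / c)
    rwa [mul_zero] at this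
  apply squeeze_zero_norm' _ h2
  filter_upwards [eventually_ge_atTop 3] with t ht
  have ht3 : (3 : ℝ) ≤ t := by exact_mod_cast ht
  have hlt : 0 < Real.log t := Real.log_pos (by linarith)
  set n : ℝ := (#((Icc 1 t).filter (fun p => p.Prime ∧ p ≡ b [MOD W])) : ℝ) with hn
  have hn0 : 0 ≤ n := Nat.cast_nonneg _
  have hnK : n ≤ K * (t / Real.log t) := by
    refine le_trans ?_ (hpr t (by omega))
    rw [hn]
    have : (Icc 1 t).filter (fun p => p.Prime ∧ p ≡ b [MOD W]) ⊆ (Icc 1 t).filter Nat.Prime := by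
      intro p hp
      rw [mem_filter] at hp ⊢
      exact ⟨hp.1, hp.2.1⟩
    exact_mod_cast card_le_card this
  have e1 : GS (fun p => (f p - δ) / c) W b t = (1 / c) * ((mean f W b t - δ) * n) := by
    unfold GS mean
    rw [← hn, ← sum_div, sum_sub_distrib, sum_const, nsmul_eq_mul, ← hn]
    rcases hn0.eq_or_lt with h0 | h0
    · have hemp : (Icc 1 t).filter (fun p => p.Prime ∧ p ≡ b [MOD W]) = ∅ := by
        rw [← card_eq_zero]
        have : ((#((Icc 1 t).filter (fun p => p.Prime ∧ p ≡ b [MOD W])) : ℕ) : ℝ) = 0 := by rw [← hn, ← h0]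
        exact_mod_cast this
      rw [← h0, hemp, sum_empty]; simp
    · field_simp
  rw [e1, Real.norm_eq_abs, abs_div, abs_mul, abs_mul, abs_mul, abs_of_pos (by positivity : 0 < 1 / c), abs_of_nonneg hn0,
    abs_of_pos hlt, abs_of_pos (by linarith : (0 : ℝ) < t)]
  have h5 : n * Real.log t / t ≤ K := by
    rw [div_le_iff₀ (by linarith)]
    calc n * Real.log t ≤ (K * (t / Real.log t)) * Real.log t := mul_le_mul_of_nonneg_right hnK hlt.le
      _ = K * t := by field_simp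
  calc 1 / c * (|mean f W b t - δ| * n) * Real.log t / t = (1 / c * |mean f W b t - δ|) * (n * Real.log t / t) := by ring
    _ ≤ (1 / c * |mean f W b t - δ|) * K := mul_le_mul_of_nonneg_left h5 (by positivity)
    _ = _ := by ring

lemma grid_point (N m j : ℕ) (hm : 1 ≤ m) (hN : 4 * m ^ 2 ≤ N) (hj : 1 ≤ j) (hjm : j ≤ m) :
    1 ≤ j * Nat.sqrt N / m ∧ N ≤ (16 * m ^ 2) * (j * Nat.sqrt N / m) ^ 2 ∧ (j * Nat.sqrt N / m) ^ 2 ≤ N := by
  set T := Nat.sqrt N with hT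
  have h2m : 2 * m ≤ T := by
    rw [hT, Nat.le_sqrt']
    calc (2 * m) ^ 2 = 4 * m ^ 2 := by ring
      _ ≤ N := hN
  set z := j * T / m with hz
  have hzT : z ≤ T := by
    rw [hz]
    apply Nat.div_le_of_le_mul
    exact Nat.mul_le_mul_right T hjm
  have h1 : T / m ≤ z := by
    rw [hz]
    apply Nat.div_le_div_right
    exact Nat.le_mul_of_pos_left T hj
  have h2 : 2 ≤ T / m := by
    rw [Nat.le_div_iff_mul_le hm]; exact h2m
  have h3 : T < m * (T / m + 1) := Nat.lt_mul_div_succ T hm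
  have h4 : T ≤ 2 * m * z := by
    have : m * (T / m + 1) ≤ m * (2 * z) := Nat.mul_le_mul_left m (by omega)
    nlinarith
  have h5 : N < (T + 1) ^ 2 := by rw [hT]; exact Nat.lt_succ_sqrt' N
  refine ⟨by omega, ?_, ?_⟩
  · have h6 : T + 1 ≤ 4 * m * z := by nlinarith
    calc N ≤ (T + 1) ^ 2 := h5.le
      _ ≤ (4 * m * z) ^ 2 := Nat.pow_le_pow_left h6 2
      _ = _ := by ring
  · exact (Nat.pow_le_pow_left hzT 2).trans (by rw [hT]; exact Nat.sqrt_le' N)

open Classical in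
theorem main (f : ℕ → ℝ) (hf : ∀ p, |f p| ≤ 1) (δ : ℝ)
    (h : ∀ q b : ℕ, 1 ≤ q → Nat.Coprime b q → Tendsto (mean f q b) atTop (𝓝 δ)) (ε : ℝ) (hε : 0 < ε) :
    ∃ X₀ : ℕ, ∀ X : ℕ, X₀ ≤ X →
      (#((Icc (-(X : ℤ)) X).filter (fun a : ℤ => ¬ ∃ H : ℝ, IsConstant a H ∧
        ∀ y : ℕ, y ^ 2 ≤ X → |R f a y - δ * H * y / Real.log X| ≤ ε * (Real.sqrt X / Real.log X))) : ℝ) ≤ ε * X := by
  set c : ℝ := 1 + |δ| with hc
  have hc1 : 1 ≤ c := by rw [hc]; linarith [abs_nonneg δ]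
  have hc0 : 0 < c := by linarith
  set g : ℕ → ℝ := fun p => (f p - δ) / c with hg
  have hgz : MZ g := mz_of_mean f δ c hc0 h
  have hg1 : ∀ p, |g p| ≤ 1 := by
    intro p
    simp only [hg]
    rw [abs_div, abs_of_pos hc0, div_le_one hc0]
    calc |f p - δ| ≤ |f p| + |δ| := abs_sub _ _
      _ ≤ c := by rw [hc]; linarith [hf p]
  have hfg : ∀ p, f p = δ + c * g p := by
    intro p
    simp only [hg]
    field_simp
    ring
  obtain ⟨K, hK, hRm⟩ := R_mean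
  set H₁ : ℝ := 4 * K / ε + 1 with hH₁
  have hH₁1 : 1 ≤ H₁ := by
    rw [hH₁]
    have : 0 ≤ 4 * K / ε := by positivity
    linarith
  set H₀ : ℝ := 2 * (2 * H₁ + 1) with hH₀
  have hH₀0 : 0 < H₀ := by rw [hH₀]; linarith
  set m : ℕ := ⌈8 * (c * H₀) / ε⌉₊ + 1 with hm
  have hm1 : 1 ≤ m := by omega
  have hm0 : (0 : ℝ) < m := by exact_mod_cast hm1
  have hmge : c * H₀ / m ≤ ε / 8 := by
    rw [div_le_iff₀ hm0]
    have h1 : 8 * (c * H₀) / ε ≤ m := (Nat.le_ceil _).trans (by rw [hm]; push_cast; linarith)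
    rw [div_le_iff₀ hε] at h1
    linarith
  set κ : ℝ := min 1 (ε / (24 * c * H₁)) with hκ
  have hκ0 : 0 < κ := by positivity
  have hκ1 : κ ≤ 1 := min_le_left _ _
  have hκH : κ * H₁ ≤ ε / (24 * c) := by
    calc κ * H₁ ≤ ε / (24 * c * H₁) * H₁ := mul_le_mul_of_nonneg_right (min_le_right _ _) (by linarith)
      _ = _ := by field_simp
  set ε₁ : ℝ := ε / (8 * c) with hε₁
  have hε₁0 : 0 < ε₁ := by positivity
  set ε₂ : ℝ := ε / (24 * c) with hε₂
  have hε₂0 : 0 < ε₂ := by positivity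
  set ε' : ℝ := min ε₁ (ε / (4 * m)) with hε'
  have hε'0 : 0 < ε' := by positivity
  obtain ⟨X₁, hfc⟩ := fc0 1 2
  have hlogt : Tendsto (fun N : ℕ => Real.log N) atTop atTop := Real.tendsto_log_atTop.comp tendsto_natCast_atTop_atTop
  have ev1 := hlogt.eventually_ge_atTop (4 / ε + 1 + Real.log 2 / κ + 1 / ε₂)
  have ev2 : ∀ᶠ N : ℕ in atTop, Real.log N ≤ (ε₂ / 4) * (N : ℝ) ^ (κ / 2) := by
    have k1 := (isLittleO_log_rpow_atTop (show (0 : ℝ) < κ / 2 by positivity)).bound (show 0 < ε₂ / 4 by positivity)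
    filter_upwards [tendsto_natCast_atTop_atTop (R := ℝ) |>.eventually k1] with N k2
    rwa [Real.norm_of_nonneg (Real.log_natCast_nonneg N), Real.norm_of_nonneg (by positivity)] at k2
  have ev3 : ∀ᶠ N : ℕ in atTop, 8 * c * H₀ / ε ≤ Real.sqrt N :=
    (Real.tendsto_sqrt_atTop.comp tendsto_natCast_atTop_atTop).eventually_ge_atTop _
  have ev := (fixedR (16 * m ^ 2) g hg1 hgz ε' hε'0).and (ev1.and (ev2.and (ev3.and (eventually_ge_atTop (X₁ + 4 * m ^ 2 + 4)))))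
  obtain ⟨X₀, hX₀⟩ := eventually_atTop.1 ev
  refine ⟨X₀, fun N hN => ?_⟩
  obtain ⟨hfix, hl1, hl2, hs3, hNge⟩ := hX₀ N hN
  have hN3 : 3 ≤ N := by omega
  have hN3r : (3 : ℝ) ≤ N := by exact_mod_cast hN3
  have hN0 : (0 : ℝ) < N := by linarith
  have hl20 : 0 < Real.log 2 := Real.log_pos (by norm_num)
  have hp1 : 0 < 4 / ε := by positivity
  have hp2 : 0 < Real.log 2 / κ := by positivity
  have hp3 : 0 < 1 / ε₂ := by positivity
  have hlN1 : 1 ≤ Real.log N := by linarith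
  have hlN : 0 < Real.log N := by linarith
  have hsN : 0 < Real.sqrt N := Real.sqrt_pos.2 hN0
  set S : ℝ := Real.sqrt N / Real.log N with hS
  have hS0 : 0 < S := by positivity
  set T : ℕ := Nat.sqrt N with hT
  have hTN : T ^ 2 ≤ N := Nat.sqrt_le' N
  have hT1 : 1 ≤ T := by rw [hT, Nat.le_sqrt']; omega
  -- the three exceptional sets
  set B1 := (Icc (-(N : ℤ)) N).filter (fun a : ℤ => ¬ ∃ H : ℝ, IsConstant a H ∧
        ∀ y : ℕ, y ^ 2 ≤ N → |theta a y - H * y| ≤ Real.sqrt N / Real.log N ^ 2) with hB1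
  set B2 := (Icc (-(N : ℤ)) N).filter (fun a : ℤ => H₁ * S < R (fun _ => 1) a T) with hB2
  set B3 : ℕ → Finset ℤ := fun j => (Icc (-(N : ℤ)) N).filter (fun a : ℤ => ε' * (Real.sqrt N / Real.log N) < |R g a (j * T / m)|) with hB3
  have c1 : (#B1 : ℝ) ≤ ε / 4 * N := by
    have k1 := hfc N (by omega)
    rw [pow_one] at k1
    refine le_trans ?_ (k1.trans ?_)
    · exact le_rfl
    · rw [div_le_iff₀ hlN]
      have k2 : 4 / ε ≤ Real.log N := by linarith
      rw [div_le_iff₀ hε] at k2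
      nlinarith
  have c2 : (#B2 : ℝ) ≤ ε / 4 * N := by
    have k1 := (markov (Icc (-(N : ℤ)) N) (fun a => R (fun _ => 1) a T) (H₁ * S) (fun a _ => R_nonneg a T)).trans (hRm N hN3 T hTN)
    rw [← hS] at k1
    have k2 : K * N * S ≤ (ε / 4 * N) * (H₁ * S) := by
      have k3 : K ≤ ε / 4 * H₁ := by
        rw [hH₁]
        have : ε / 4 * (4 * K / ε + 1) = K + ε / 4 := by field_simp
        rw [this]; linarith
      calc K * N * S ≤ (ε / 4 * H₁) * N * S := by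
            apply mul_le_mul_of_nonneg_right _ hS0.le
            exact mul_le_mul_of_nonneg_right k3 hN0.le
        _ = _ := by ring
    exact le_of_mul_le_mul_right (k1.trans k2) (by positivity)
  have c3 : ∀ j ∈ Icc 1 m, (#(B3 j) : ℝ) ≤ ε / (4 * m) * N := by
    intro j hj
    rw [mem_Icc] at hj
    have k1 := grid_point N m j hm1 (by omega) hj.1 hj.2
    rw [← hT] at k1
    have k2 := hfix (j * T / m) k1.1 k1.2.1 k1.2.2
    refine k2.trans (mul_le_mul_of_nonneg_right (min_le_right _ _) hN0.le)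
  have hsub : (Icc (-(N : ℤ)) N).filter (fun a : ℤ => ¬ ∃ H : ℝ, IsConstant a H ∧
        ∀ y : ℕ, y ^ 2 ≤ N → |R f a y - δ * H * y / Real.log N| ≤ ε * (Real.sqrt N / Real.log N)) ⊆
      B1 ∪ (B2 ∪ (Icc 1 m).biUnion B3) := by
    intro a ha
    rw [mem_filter] at ha
    obtain ⟨haN, hno⟩ := ha
    by_contra hcon
    rw [mem_union, mem_union, mem_biUnion] at hcon
    push Not at hcon
    obtain ⟨n1, n2, n3⟩ := hcon
    have g1 : ∃ H : ℝ, IsConstant a H ∧ ∀ y : ℕ, y ^ 2 ≤ N → |theta a y - H * y| ≤ Real.sqrt N / Real.log N ^ 2 := by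
      by_contra hc
      exact n1 (mem_filter.2 ⟨haN, hc⟩)
    have g2 : R (fun _ => 1) a T ≤ H₁ * S := by
      by_contra hc
      exact n2 (mem_filter.2 ⟨haN, not_le.1 hc⟩)
    have g3 : ∀ j ∈ Icc 1 m, |R g a (j * T / m)| ≤ ε₁ * S := by
      intro j hj
      have k1 : |R g a (j * T / m)| ≤ ε' * S := by
        by_contra hc
        exact n3 j hj (mem_filter.2 ⟨haN, not_le.1 hc⟩)
      exact k1.trans (mul_le_mul_of_nonneg_right (min_le_left _ _) hS0.le)
    obtain ⟨H, hH, hth⟩ := g1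
    apply hno
    refine ⟨H, hH, fun y hy => ?_⟩
    rw [mem_Icc] at haN
    have hY : ∀ v : ℕ, ⌊(N : ℝ) ^ (1 - κ)⌋₊ < v → (1 - κ) * Real.log N ≤ Real.log v := by
      intro v hv
      have k1 := Nat.lt_of_floor_lt hv
      rw [← Real.log_rpow hN0]
      exact Real.log_le_log (by positivity) k1.le
    have hY2 : ((Nat.sqrt (2 * ⌊(N : ℝ) ^ (1 - κ)⌋₊) + 1 : ℕ) : ℝ) ≤ ε₂ * S := by
      have k1 : (Nat.sqrt (2 * ⌊(N : ℝ) ^ (1 - κ)⌋₊) : ℝ) ≤ Real.sqrt (2 * (N : ℝ) ^ (1 - κ)) := by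
        refine Real.nat_sqrt_le_real_sqrt.trans (Real.sqrt_le_sqrt ?_)
        push_cast
        exact mul_le_mul_of_nonneg_left (Nat.floor_le (by positivity)) (by norm_num)
      have k2 : Real.sqrt (2 * (N : ℝ) ^ (1 - κ)) ≤ 2 * (N : ℝ) ^ ((1 - κ) / 2) := by
        rw [Real.sqrt_le_left (by positivity)]
        rw [mul_pow, ← Real.rpow_natCast ((N : ℝ) ^ ((1 - κ) / 2)), ← Real.rpow_mul hN0.le]
        have k3 : ((1 - κ) / 2) * ((2 : ℕ) : ℝ) = 1 - κ := by push_cast; ring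
        rw [k3]
        have : 0 ≤ (N : ℝ) ^ (1 - κ) := by positivity
        linarith
      have k3 : 1 ≤ (N : ℝ) ^ ((1 - κ) / 2) := Real.one_le_rpow (by linarith) (by linarith)
      have k4 : ((Nat.sqrt (2 * ⌊(N : ℝ) ^ (1 - κ)⌋₊) + 1 : ℕ) : ℝ) ≤ 3 * (N : ℝ) ^ ((1 - κ) / 2) := by
        push_cast; linarith
      refine k4.trans ?_
      rw [hS, ← mul_div_assoc, le_div_iff₀ hlN]
      calc 3 * (N : ℝ) ^ ((1 - κ) / 2) * Real.log N ≤ 3 * (N : ℝ) ^ ((1 - κ) / 2) * ((ε₂ / 4) * (N : ℝ) ^ (κ / 2)) :=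
            mul_le_mul_of_nonneg_left hl2 (by positivity)
        _ = (3 / 4) * (ε₂ * ((N : ℝ) ^ ((1 - κ) / 2) * (N : ℝ) ^ (κ / 2))) := by ring
        _ = (3 / 4) * (ε₂ * Real.sqrt N) := by
            rw [← Real.rpow_add hN0, Real.sqrt_eq_rpow]
            congr 3; ring
        _ ≤ ε₂ * Real.sqrt N := by
            have : 0 ≤ ε₂ * Real.sqrt N := by positivity
            linarith
    have hκN : Real.log 2 ≤ κ * Real.log N := by
      have k1 : Real.log 2 / κ ≤ Real.log N := by linarith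
      rw [div_le_iff₀ hκ0] at k1
      linarith
    have hε₂l : 1 ≤ ε₂ * Real.log N := by
      have k1 : 1 / ε₂ ≤ Real.log N := by linarith
      rw [div_le_iff₀ hε₂0] at k1
      linarith
    have hlog : Real.sqrt N / Real.log N ^ 2 / Real.log N ≤ ε₂ * S := by
      rw [hS, div_div, div_le_iff₀ (by positivity)]
      have e : ε₂ * (Real.sqrt N / Real.log N) * (Real.log N ^ 2 * Real.log N) = (ε₂ * Real.log N) * Real.log N * Real.sqrt N := by
        field_simp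
      rw [e]
      have : 1 ≤ (ε₂ * Real.log N) * Real.log N := one_le_mul_of_one_le_of_one_le hε₂l hlN1
      nlinarith
    have hlog2 : Real.sqrt N / Real.log N ^ 2 ≤ Real.sqrt N := div_le_self hsN.le (one_le_pow₀ hlN1)
    have hres := one_a f δ c hc g hg1 hfg N ⌊(N : ℝ) ^ (1 - κ)⌋₊ T m hN3 hT hm1 κ H₁ S ε₁ ε₂ ε₂ hS hκ0 hκ1 hκN hY hH₁1 hY2
      hlog hlog2 hT1 a (abs_le.2 haN) H hth g2 g3 y hy
    refine hres.trans ?_
    rw [← hH₀, ← hS]
    have k1 : 3 * c * (ε₂ + κ * H₁ + ε₂) ≤ 3 * ε / 8 := by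
      have : ε₂ + κ * H₁ + ε₂ ≤ 3 * (ε / (24 * c)) := by rw [hε₂]; linarith
      calc 3 * c * (ε₂ + κ * H₁ + ε₂) ≤ 3 * c * (3 * (ε / (24 * c))) := mul_le_mul_of_nonneg_left this (by positivity)
        _ = 3 * ε / 8 := by field_simp; norm_num
    have k2 : c * ε₁ = ε / 8 := by rw [hε₁]; field_simp
    have k3 : c * H₀ / Real.log N ≤ ε / 8 * S := by
      rw [hS, ← mul_div_assoc]
      apply div_le_div_of_nonneg_right _ hlN.le
      rw [div_le_iff₀ hε] at hs3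
      linarith
    have k4 : (3 * c * (ε₂ + κ * H₁ + ε₂) + c * ε₁ + c * H₀ / m) * S ≤ (3 * ε / 8 + ε / 8 + ε / 8) * S := by
      apply mul_le_mul_of_nonneg_right _ hS0.le
      linarith
    have k5 : (3 * ε / 8 + ε / 8 + ε / 8) * S + ε / 8 * S = 3 / 4 * (ε * S) := by ring
    have k6 : 0 < ε * S := by positivity
    linarith
  have hcard : (#(B1 ∪ (B2 ∪ (Icc 1 m).biUnion B3)) : ℝ) ≤ #B1 + (#B2 + ∑ j ∈ Icc 1 m, (#(B3 j) : ℝ)) := by
    have k1 := card_union_le B1 (B2 ∪ (Icc 1 m).biUnion B3)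
    have k2 := card_union_le B2 ((Icc 1 m).biUnion B3)
    have k3 := card_biUnion_le (s := Icc 1 m) (t := B3)
    have k4 : #(B1 ∪ (B2 ∪ (Icc 1 m).biUnion B3)) ≤ #B1 + (#B2 + ∑ j ∈ Icc 1 m, #(B3 j)) := by omega
    exact_mod_cast k4
  have hsum3 : ∑ j ∈ Icc 1 m, (#(B3 j) : ℝ) ≤ ε / 4 * N := by
    calc ∑ j ∈ Icc 1 m, (#(B3 j) : ℝ) ≤ ∑ _j ∈ Icc 1 m, ε / (4 * m) * N := sum_le_sum c3
      _ = ε / 4 * N := by
          rw [sum_const, Nat.card_Icc, Nat.add_sub_cancel, nsmul_eq_mul]; field_simp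
  have hεN : 0 < ε * N := by positivity
  calc _ ≤ (#(B1 ∪ (B2 ∪ (Icc 1 m).biUnion B3)) : ℝ) := by exact_mod_cast card_le_card hsub
    _ ≤ #B1 + (#B2 + ∑ j ∈ Icc 1 m, (#(B3 j) : ℝ)) := hcard
    _ ≤ ε * N := by linarith

end Pool.Agent.W5h22.PV
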